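import Pool.Agent.T6.H15.UE.Map

/-!
# Bounds for the ranks and dimensions
-/

set_option autoImplicit false

open MvPolynomial

namespace Pool.Agent.T6.H15.UE

open Pool.Agent.T6.H15.ZP Pool.Agent.T6.H15.MZ

variable {e h k : ℕ} {g : Fin e → ℂ} {V' : Set (Fin h → ℂ)} {ι T Q : Type} [Fintype ι]
  [Fintype T] [Fintype Q] {β : Fin e → ι} {copy : T → Fin h → ι} {idx : ι → Fin e ⊕ (T × Fin h)}
  {W : Set (ι → ℂ)} {E : Enc V'} {s : Q → ℂ} {γg : Fin e → Q} {γa : Fin E.M → Q} {γl : Q}

/-- The relations on the image of `X`. -/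
theorem rank_ge (hS : Split g V') (hP : Pow k g V' β copy idx W) (hR : Par g E s γg γa γl)
    {X : Set (ι → ℂ)} (hXW : X ⊆ W) {M : Submodule ℤ (ι → ℤ)} (hM : TorsOn X M) :
    Module.finrank ℤ (rel (image s copy E W)) + Module.finrank ℤ M ≤
      Module.finrank ℤ (rel (image s copy E X)) := by
  classical
  have hWL := image_line (s := s) (E := E) hP hR (subset_refl W)
  have hXL := image_line (s := s) (E := E) hP hR hXW
  let push' : (ι → ℤ) →ₗ[ℤ] (Idx T Q h E.M ⊕ Idx T Q h E.M → ℤ) :=
    Fintype.linearCombination ℤ fun x => Pi.single (Sum.inl (pi γg idx E.M x)) (1 : ℤ)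
  have hpush : ∀ w ∈ W, eval w (good copy E) ≠ 0 → ∀ a,
      chr (pair (phi s copy E w)) (push' a) = chr w a := by
    intro w hw hg a
    have h1 : push' a = ∑ x, a x • Pi.single (Sum.inl (pi γg idx E.M x)) (1 : ℤ) :=
      Fintype.linearCombination_apply _ _ _
    rw [h1, chr_sum (pair_ne_zero (phi_line hP hR hw hg))]
    show _ = ∏ x, w x ^ a x
    refine Finset.prod_congr rfl fun x _ => ?_
    rw [chr_zsmul, chr_single]
    show (phi s copy E w (pi γg idx E.M x)) ^ a x = _
    rw [phi_pi hP hR hw]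
  let φ : (rel (image s copy E W) × M) →ₗ[ℤ] (Idx T Q h E.M ⊕ Idx T Q h E.M → ℤ) :=
    (rel (image s copy E W)).subtype.coprod (push'.comp M.subtype)
  have hφ : ∀ p, φ p = (p.1 : Idx T Q h E.M ⊕ Idx T Q h E.M → ℤ) + push' p.2 := by
    intro p
    show (rel (image s copy E W)).subtype.coprod (push'.comp M.subtype) p = _
    rw [LinearMap.coprod_apply]
    rfl
  have hinj : Function.Injective φ := by
    rw [← LinearMap.ker_eq_bot, Submodule.eq_bot_iff]
    intro p hp
    rw [LinearMap.mem_ker, hφ] at hp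
    have h1 : push' p.2 ∈ rel (image s copy E W) := by
      have h2 : push' p.2 = -(p.1 : Idx T Q h E.M ⊕ Idx T Q h E.M → ℤ) := by
        rw [eq_neg_iff_add_eq_zero, add_comm]
        exact hp
      rw [h2]
      exact Submodule.neg_mem _ p.1.2
    obtain ⟨c, hc, h2⟩ := (mem_rel hWL).1 h1
    have h3 : (p.2 : ι → ℤ) = 0 := by
      by_contra hne
      refine hP.pow.nonspecial hS _ hne c hc ?_
      obtain ⟨f, hf⟩ := exists_binomial' (p.2 : ι → ℤ) c
      have h4 : f ∈ idealOf {w | w ∈ W ∧ eval w (good copy E) ≠ 0} := by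
        rw [mem_idealOf]
        rintro w ⟨hw, hg⟩
        rw [hf w (hP.pow.torus w hw), ← hpush w hw hg]
        exact h2 _ ⟨w, ⟨hw, hg⟩, rfl⟩
      rw [idealOf_open hP.pow.irred (good_not_mem hS hP)] at h4
      intro w hw
      exact (hf w (hP.pow.torus w hw)).1 (mem_idealOf.1 h4 w hw)
    have h5 : p.1 = 0 := by
      apply Subtype.ext
      rw [h3, map_zero, add_zero] at hp
      exact hp
    exact Prod.ext h5 (Subtype.ext h3)
  have hle : LinearMap.range φ ≤ rel (image s copy E X) := by
    rintro _ ⟨p, rfl⟩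
    rw [hφ]
    apply Submodule.add_mem
    · obtain ⟨c, hc, h1⟩ := (mem_rel hWL).1 p.1.2
      refine (mem_rel hXL).2 ⟨c, hc, ?_⟩
      rintro _ ⟨w, ⟨hw, hg⟩, rfl⟩
      exact h1 _ ⟨w, ⟨hXW hw, hg⟩, rfl⟩
    · obtain ⟨c, hc, h1⟩ := hM _ p.2.2
      refine (mem_rel hXL).2 ⟨c, hc, ?_⟩
      rintro _ ⟨w, ⟨hw, hg⟩, rfl⟩
      rw [hpush w (hXW hw) hg]
      exact h1 w hw
  have h1 := Submodule.finrank_mono hle
  rwa [LinearMap.finrank_range_of_inj hinj, Module.finrank_prod] at h1

theorem isMon_rv (t : T) (j : ℕ) : IsMon (fun y : Idx T Q h E.M → ℂ => rv E y t j) := by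
  unfold rv
  split_ifs with hj
  · exact IsMon.coord _
  · exact IsMon.one

/-- Closed subsets which contain the image of the power. -/
theorem upper (hS : Split g V') (hP : Pow k g V' β copy idx W) (hR : Par g E s γg γa γl)
    {Y : Set (Idx T Q h E.M → ℂ)} (hY : Irred Y) (hYL : Y ⊆ line _)
    (hI : idealOf Y ≤ idealOf (image s copy E W)) :
    Module.finrank ℤ (rel Y) + dim Y ≤
      Module.finrank ℤ (rel (image s copy E W)) + dim W + Fintype.card Q := by
  classical
  set U := image s copy E W with hU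
  have hUi : Irred U := irred_image hP.pow.irred (good_not_mem hS hP)
  have hUL : U ⊆ line _ := image_line hP hR (subset_refl W)
  have hUne : U.Nonempty := hUi.nonempty
  obtain ⟨Y1, a1, a2, a3, a4, a5, a6⟩ := exists_full hUi hUL _ Y hY hYL hI (Nat.le_add_left _ _)
  obtain ⟨Y2, b1, b2, b3, b4, b5, b6⟩ := krull_finset (Finset.univ : Finset Q)
    (fun q => (X (Sum.inl q) - C (s q) : MvPolynomial (Idx T Q h E.M) ℂ)) a1 a2 hUi hUL a4 (by
      intro q _
      rw [mem_idealOf]
      rintro _ ⟨w, _, rfl⟩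
      rw [map_sub, eval_X, eval_C, phi_inl, sub_self])
  have hrank := Submodule.finrank_mono (rel_le a2 hUL a4)
  have hrel : rel U ≤ rel Y2 := a5.trans (rel_le a2 b2 b3)
  have hparam : ∀ y ∈ Y2, ∀ q, y (Sum.inl q) = s q := by
    intro y hy q
    have h1 := mem_idealOf.1 (b5 q (Finset.mem_univ q)) y hy
    rwa [map_sub, eval_X, eval_C, sub_eq_zero] at h1
  -- the relations of the first kind
  have hR1 : ∀ y ∈ Y2, ∀ (t : T) (l : Fin E.M), (1 - y (Sum.inr (t, Sum.inr l))) * E.lam =
      E.a l * ((∏ i ∈ (E.m l).support, y (Sum.inr (t, Sum.inl i)) ^ (E.m l i)) *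
          ∏ j ∈ Finset.range (l + 1), rv E y t j) := by
    intro y hy t l
    have h1 := IsMon.transfer
      (f := fun y : Idx T Q h E.M → ℂ => (1 - y (Sum.inr (t, Sum.inr l))) * y (Sum.inl γl))
      (g := fun y => y (Sum.inl (γa l)) *
        ((∏ i ∈ (E.m l).support, y (Sum.inr (t, Sum.inl i)) ^ (E.m l i)) *
          ∏ j ∈ Finset.range (l + 1), rv E y t j))
      ((IsMon.coord' _).mul (IsMon.coord _))
      ((IsMon.coord _).mul ((IsMon.prod _ fun i _ => (IsMon.coord _).pow _).mul
        (IsMon.prod _ fun j _ => isMon_rv t j))) hUL b2 hUne hrel b4 (by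
          rintro _ ⟨w, ⟨_, hg⟩, rfl⟩
          exact rel1 hg hR t l) y hy
    rw [hparam y hy, hparam y hy, hR.hl, hR.ha] at h1
    exact h1
  have hR2 : ∀ y ∈ Y2, ∀ (t : T), ∀ l ∈ E.cuts, ∏ j ∈ Finset.range l, rv E y t j = 1 := by
    intro y hy t l hl
    exact IsMon.transfer (f := fun y : Idx T Q h E.M → ℂ => ∏ j ∈ Finset.range l, rv E y t j)
      (g := fun _ => 1) (IsMon.prod _ fun j _ => isMon_rv t j) IsMon.one hUL b2 hUne hrel b4 (by
          rintro _ ⟨w, ⟨hw, hg⟩, rfl⟩
          exact rel2 hP hw hg t hl) y hy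
  -- the recursion
  have hrec : ∀ y ∈ Y2, ∀ (t : T) (l : ℕ), l ≤ E.M →
      (∏ j ∈ Finset.range l, rv E y t j) * wv E (fun a => y (Sum.inr (t, Sum.inl a))) l =
        E.lam := by
    intro y hy t l
    induction l with
    | zero =>
      intro _
      rw [Finset.prod_range_zero, one_mul, wv_zero]
    | succ l ih =>
      intro hl
      have h1 := ih (by omega)
      have h2 := hR1 y hy t ⟨l, hl⟩
      have h3 : rv E y t l = y (Sum.inr (t, Sum.inr ⟨l, hl⟩)) := rv_lt E y t ⟨l, hl⟩
      rw [← h3] at h2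
      simp only at h2
      rw [Finset.prod_range_succ] at h2 ⊢
      rw [wv_succ]
      unfold Finsupp.prod
      linear_combination rv E y t l * h1 - h2
  -- the copies of `V'`
  have hcopy : ∀ y ∈ Y2, ∀ t, (fun a => y (Sum.inr (t, Sum.inl a))) ∈ zcl V' := by
    intro y hy t
    apply E.hgen
    intro l hl
    have h1 := hrec y hy t l (E.hle l hl)
    rw [hR2 y hy t l hl, one_mul] at h1
    unfold wv at h1
    linear_combination h1
  have hsub : img (pi γg idx E.M) Y2 ⊆ zcl W := by
    rintro _ ⟨y, hy, rfl⟩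
    apply hP.closure
    · intro i
      dsimp only
      rw [pi_β hP, hparam y hy, hR.hg]
    · intro t
      have h1 : (fun a => (fun x => y (pi γg idx E.M x)) (copy t a)) =
          fun a => y (Sum.inr (t, Sum.inl a)) := by
        funext a
        dsimp only
        rw [pi_copy hP]
      rw [h1]
      exact hcopy y hy t
  -- the dimension
  have hb1 : (idealOf Y2).IsPrime := b1
  obtain ⟨S, hS1, hS2, hS3⟩ := exists_indep_in b1 (Set.range (pi γg idx E.M : ι → Idx T Q h E.M)) (by
    set B := MvPolynomial (Idx T Q h E.M) ℂ ⧸ idealOf Y2 with hB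
    set z : Idx T Q h E.M → B := fun i => Ideal.Quotient.mk (idealOf Y2) (X i) with hz
    set A := Algebra.adjoin ℂ (z '' Set.range (pi γg idx E.M : ι → Idx T Q h E.M)) with hA
    have hzx : ∀ (t : T) (a : Fin h), z (Sum.inr (t, Sum.inl a)) ∈ A := by
      intro t a
      apply Algebra.subset_adjoin
      exact ⟨_, ⟨copy t a, pi_copy hP E.M t a⟩, rfl⟩
    have hwA : ∀ (t : T) (l : ℕ), Ideal.Quotient.mk (idealOf Y2) (rename
        (fun a => (Sum.inr (t, Sum.inl a) : Idx T Q h E.M)) (C E.lam + psum E.m E.a l)) ∈ A := by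
      intro t l
      have h1 : ∀ p : MvPolynomial (Fin h) ℂ, Ideal.Quotient.mk (idealOf Y2)
          (rename (fun a => (Sum.inr (t, Sum.inl a) : Idx T Q h E.M)) p) ∈ A := by
        intro p
        induction p using MvPolynomial.induction_on with
        | C c =>
          rw [rename_C]
          exact A.algebraMap_mem c
        | add p q hp hq =>
          rw [map_add, map_add]
          exact A.add_mem hp hq
        | mul_X p i hp =>
          rw [map_mul, map_mul, rename_X]
          exact A.mul_mem hp (hzx t i)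
      exact h1 _
    rintro (q | ⟨t, (a | l)⟩)
    · have h1 : z (Sum.inl q) = algebraMap ℂ B (s q) := by
        rw [hz]
        show Ideal.Quotient.mk (idealOf Y2) (X (Sum.inl q)) = Ideal.Quotient.mk (idealOf Y2) (C (s q))
        rw [Ideal.Quotient.eq]
        exact b5 q (Finset.mem_univ q)
      show IsAlgebraic A (z (Sum.inl q))
      rw [h1]
      have h2 : algebraMap ℂ B (s q) = algebraMap A B (algebraMap ℂ A (s q)) := rfl
      rw [h2]
      exact isAlgebraic_algebraMap _
    · exact isAlgebraic_algebraMap (⟨z (Sum.inr (t, Sum.inl a)), hzx t a⟩ : A)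
    · refine isAlgebraic_of_mul (b := (⟨_, hwA t (l + 1)⟩ : A)) (a := (⟨_, hwA t l⟩ : A)) ?_ ?_
      · intro h0
        have h1 := congrArg Subtype.val h0
        have h2 : rename (fun a => (Sum.inr (t, Sum.inl a) : Idx T Q h E.M))
            (C E.lam + psum E.m E.a (l + 1)) ∈ idealOf Y2 := by
          rw [← Ideal.Quotient.eq_zero_iff_mem]
          exact h1
        obtain ⟨y, hy⟩ := b1.nonempty
        have h3 := mem_idealOf.1 h2 y hy
        rw [eval_rename, wv_eq] at h3
        have h4 := hrec y hy t (l + 1) l.2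
        have h5 : wv E (y ∘ fun a => (Sum.inr (t, Sum.inl a) : Idx T Q h E.M)) (l + 1) =
          wv E (fun a => y (Sum.inr (t, Sum.inl a))) (l + 1) := rfl
        rw [← h5, h3, mul_zero] at h4
        exact E.hlam.1 h4.symm
      · show Ideal.Quotient.mk (idealOf Y2) (rename
          (fun a => (Sum.inr (t, Sum.inl a) : Idx T Q h E.M)) (C E.lam + psum E.m E.a (l + 1))) *
          Ideal.Quotient.mk (idealOf Y2) (X (Sum.inr (t, Sum.inr l))) =
          Ideal.Quotient.mk (idealOf Y2) (rename
          (fun a => (Sum.inr (t, Sum.inl a) : Idx T Q h E.M)) (C E.lam + psum E.m E.a l))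
        rw [← map_mul, Ideal.Quotient.eq, mem_idealOf]
        intro y hy
        rw [map_sub, map_mul, eval_rename, eval_rename, wv_eq, wv_eq, eval_X, sub_eq_zero]
        have h1 := hrec y hy t l l.2.le
        have h2 := hrec y hy t (l + 1) l.2
        rw [Finset.prod_range_succ, rv_lt E y t l] at h2
        have h3 : (∏ j ∈ Finset.range l, rv E y t j) ≠ 0 := by
          intro h0
          rw [h0, zero_mul] at h1
          exact E.hlam.1 h1.symm
        apply mul_left_cancel₀ h3
        show (∏ j ∈ Finset.range l, rv E y t j) *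
          (wv E (fun a => y (Sum.inr (t, Sum.inl a))) (l + 1) * y (Sum.inr (t, Sum.inr l))) =
          (∏ j ∈ Finset.range l, rv E y t j) * wv E (fun a => y (Sum.inr (t, Sum.inl a))) l
        rw [h1, ← h2]
        ring)
  have hc : ∀ i : S, ∃ x : ι, pi γg idx E.M x = (i : Idx T Q h E.M) := fun i => hS1 i i.2
  choose c hc using hc
  have h1 : Indep Y2 (fun i : S => pi γg idx E.M (c i)) := by
    have h2 : (fun i : S => pi γg idx E.M (c i)) = fun i : S => (i : Idx T Q h E.M) := funext hc
    rw [h2]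
    exact hS2
  have h2 := (Indep.img' h1).card_le (irred_img b1)
  have h3 : dim (img (pi γg idx E.M) Y2) ≤ dim (zcl W) :=
    dim_mono_set (irred_img b1) (isVar_zcl hP.pow.irred).irred hsub
  rw [dim_zcl] at h3
  rw [Fintype.card_coe, hS3] at h2
  rw [Finset.card_univ] at b6
  omega

end Pool.Agent.T6.H15.UE
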