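import Pool.Agent.T6.H15.UE.Main

/-!
# The conjecture of Zilber implies the finiteness of the optimal subvarieties of the powers of the line
-/

set_option autoImplicit false

open MvPolynomial

namespace Pool.Agent.T6.H15.UE

open Pool.Agent.T6.H15.ZP Pool.Agent.T6.H15.MZ

section Torus

variable {ι : Type} [Fintype ι]

/-- the characters which are constant on `X` with roots of unity as values -/
def tl (X : Set (ι → ℂ)) (ht : InTorus X) : Submodule ℤ (ι → ℤ) where
  carrier := {a | ∃ c, RootU c ∧ IsConst X a c}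
  zero_mem' := ⟨1, RootU.one, fun x _ => chr_zero x⟩
  add_mem' := by
    rintro a b ⟨c, hc, h1⟩ ⟨d, hd, h2⟩
    exact ⟨c * d, hc.mul hd, fun x hx => by rw [chr_add (ht x hx), h1 x hx, h2 x hx]⟩
  smul_mem' := by
    rintro m a ⟨c, hc, h1⟩
    exact ⟨c ^ m, hc.zpow m, fun x hx => by rw [chr_zsmul, h1 x hx]⟩

theorem not_dense_rel (H : ∀ m, Zilber m) {V : Set (ι → ℂ)} (ht : InTorus V) (hV : Irred V) :
    ∃ f, f ∉ idealOf V ∧ ∀ (X : Set (ι → ℂ)) (htX : InTorus X), Irred X → X ⊆ V →
      dim V + Module.finrank ℤ (tl V ht) + 1 ≤ dim X + Module.finrank ℤ (tl X htX) →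
      f ∈ idealOf X := by
  classical
  obtain ⟨e, h, b, hb1, hb2, he⟩ := exists_adapted (tl V ht) (by
    rintro a m hm ⟨c, hc, h1⟩
    obtain ⟨c', hc', h2⟩ := IsConst.of_smul hV ht hm h1
    exact ⟨c', rootU_of_zpow hm (by rw [h2]; exact hc), hc'⟩)
  obtain ⟨v0, hv0⟩ := hV.nonempty
  choose g hgr hg using hb1
  have hgv : ∀ v ∈ V, ∀ i, chr v (b (Sum.inl i)) = g i := fun v hv i => hg i v hv
  set b' : Fin h → ι → ℤ := fun j => b (Sum.inr j) with hb'
  have hmono : ∀ v ∈ V, mono (fun j => b j) v = Sum.elim g (mono b' v) := by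
    intro v hv
    funext j
    rcases j with j | j
    · exact hgv v hv j
    · rfl
  have hns : Nonspecial (mono b' '' V) := by
    intro a ha c hc hac
    apply ha
    have h1 : (∑ j, a j • b' j) ∈ tl V ht :=
      ⟨c, hc, fun v hv => by rw [← chr_mono _ (ht v hv)]; exact hac _ ⟨v, hv, rfl⟩⟩
    funext j
    have h2 := hb2 _ h1 j
    simp only [map_sum, map_smul, hb', Module.Basis.repr_self, Finsupp.finsetSum_apply,
      Finsupp.smul_apply] at h2
    simpa [Finsupp.single_apply] using h2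
  have hnd := not_dense_of (notDense_of_zilber le_rfl (H h)) (ht.mono b') (hV.mono ht b') hns
  unfold DenseExcess at hnd
  push Not at hnd
  obtain ⟨f, hf, hall⟩ := hnd
  obtain ⟨y, ⟨v, hv, rfl⟩, hfv⟩ := exists_of_not_mem hf
  obtain ⟨F, hF⟩ := exists_pull b' f
  refine ⟨F, not_mem_of_eval hv (fun h0 => hfv ((hF v (ht v hv)).1 h0)), ?_⟩
  intro X htX hX hXV hdim
  let lin : (Fin h → ℤ) →ₗ[ℤ] (ι → ℤ) := Fintype.linearCombination ℤ b'
  have hlin : ∀ a, lin a = ∑ j, a j • b' j := fun a => Fintype.linearCombination_apply _ _ _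
  have hvan := hall (mono b' '' X) ⟨hX.mono htX b', Set.image_mono hXV, (tl X htX).comap lin, ?_, ?_⟩
  · rw [mem_idealOf]
    intro x hx
    rw [hF x (htX x hx)]
    exact mem_idealOf.1 hvan _ ⟨x, hx, rfl⟩
  · intro a ha
    obtain ⟨c, hc, h1⟩ := ha
    refine ⟨c, hc, ?_⟩
    rintro _ ⟨x, hx, rfl⟩
    rw [chr_mono _ (htX x hx), ← hlin]
    exact h1 x hx
  · have h2 : dim X ≤ dim (mono b' '' X) := by
      obtain ⟨c, hc, -⟩ := exists_inverse b
      have h3 : mono c '' (mono (fun j => b j) '' X) = X := by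
        rw [← Set.image_comp]
        ext x
        constructor
        · rintro ⟨y, hy, rfl⟩
          show mono c (mono (fun j => b j) y) ∈ X
          rw [hc ℂ y (htX y hy)]
          exact hy
        · intro hx
          exact ⟨x, hx, hc ℂ x (htX x hx)⟩
      have h4 : mono (fun j => b j) '' X = prodSet {g} (mono b' '' X) := by
        ext z
        constructor
        · rintro ⟨x, hx, rfl⟩
          rw [hmono x (hXV hx)]
          exact elim_mem rfl ⟨x, hx, rfl⟩
        · intro hz
          obtain ⟨w, hw, y, ⟨x, hx, rfl⟩, rfl⟩ := exists_elim hz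
          rw [Set.mem_singleton_iff] at hw
          subst hw
          exact ⟨x, hx, hmono x (hXV hx)⟩
      have h5 := dim_mono_le (hX.mono htX (fun j => b j)) (htX.mono _) c
      rw [h3, h4, dim_prod (irred_singleton g) (hX.mono htX b'), dim_singleton, zero_add] at h5
      exact h5
    have h6 := dim_mono_le hV ht b'
    have h7 : Module.finrank ℤ (tl X htX) ≤ e + Module.finrank ℤ ((tl X htX).comap lin) := by
      have hmem : ∀ a ∈ tl X htX, (fun j => b.repr a (Sum.inr j)) ∈ (tl X htX).comap lin := by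
        intro a ha
        rw [Submodule.mem_comap, hlin]
        have h8 : a = ∑ i, b.repr a (Sum.inl i) • b (Sum.inl i) +
            ∑ j, b.repr a (Sum.inr j) • b' j := by
          conv_lhs => rw [← b.sum_repr a]
          rw [Fintype.sum_sum_type]
        have h9 : ∑ j, b.repr a (Sum.inr j) • b' j =
            a - ∑ i, b.repr a (Sum.inl i) • b (Sum.inl i) := by
          rw [eq_sub_iff_add_eq, add_comm]
          exact h8.symm
        rw [h9]
        apply Submodule.sub_mem _ ha
        apply Submodule.sum_mem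
        intro i _
        apply Submodule.smul_mem
        exact ⟨g i, hgr i, fun x hx => hg i x (hXV hx)⟩
      let ψ : tl X htX →ₗ[ℤ] (Fin e → ℤ) × ((tl X htX).comap lin) :=
        { toFun := fun a => (fun i => b.repr (a : ι → ℤ) (Sum.inl i), ⟨_, hmem a a.2⟩)
          map_add' := fun a a' => by
            refine Prod.ext (funext fun i => ?_) (Subtype.ext (funext fun j => ?_))
            · simp
            · simp
          map_smul' := fun m a => by
            refine Prod.ext (funext fun i => ?_) (Subtype.ext (funext fun j => ?_))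
            · show b.repr (m • (a : ι → ℤ)) (Sum.inl i) = m • b.repr (a : ι → ℤ) (Sum.inl i)
              rw [map_smul]
              rfl
            · show b.repr (m • (a : ι → ℤ)) (Sum.inr j) = m • b.repr (a : ι → ℤ) (Sum.inr j)
              rw [map_smul]
              rfl }
      have hψ : Function.Injective ψ := by
        intro a a' haa
        apply Subtype.ext
        apply b.repr.injective
        ext j
        rcases j with i | j
        · exact congrFun (congrArg Prod.fst haa) i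
        · exact congrFun (congrArg Subtype.val (congrArg Prod.snd haa)) j
      have h8 := LinearMap.finrank_le_finrank_of_injective hψ
      rwa [Module.finrank_prod, Module.finrank_fintype_fun_eq_card, Fintype.card_fin] at h8
    rw [← he] at hdim
    omega

end Torus

section Line

variable {κ : Type} [Fintype κ]

theorem rel_eq_tl {X : Set (κ → ℂ)} (hX : X ⊆ line κ) : rel X = tl (pair '' X) (pair_torus hX) := by
  ext a
  rw [mem_rel hX]
  constructor
  · rintro ⟨c, hc, h⟩
    refine ⟨c, hc, ?_⟩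
    rintro _ ⟨x, hx, rfl⟩
    exact h x hx
  · rintro ⟨c, hc, h⟩
    exact ⟨c, hc, fun x hx => h _ ⟨x, hx, rfl⟩⟩

theorem dim_pair {X : Set (κ → ℂ)} (hX : Irred X) : dim (pair '' X) = dim X := by
  classical
  have hp := irred_pair hX
  have h1 : img (Sum.inl : κ → κ ⊕ κ) (pair '' X) = X := by
    ext x
    constructor
    · rintro ⟨_, ⟨x, hx, rfl⟩, rfl⟩
      exact hx
    · intro hx
      exact ⟨_, ⟨x, hx, rfl⟩, rfl⟩
  apply le_antisymm
  · have hpp : (idealOf (pair '' X)).IsPrime := hp
    obtain ⟨S, hS1, hS2, hS3⟩ := exists_indep_in hp (Set.range (Sum.inl : κ → κ ⊕ κ)) (by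
      set B := MvPolynomial (κ ⊕ κ) ℂ ⧸ idealOf (pair '' X) with hB
      set z : κ ⊕ κ → B := fun i => Ideal.Quotient.mk (idealOf (pair '' X)) (MvPolynomial.X i) with hz
      set A := Algebra.adjoin ℂ (z '' Set.range (Sum.inl : κ → κ ⊕ κ)) with hA
      have hl : ∀ i, z (Sum.inl i) ∈ A := fun i => Algebra.subset_adjoin ⟨_, ⟨i, rfl⟩, rfl⟩
      rintro (i | i)
      · exact isAlgebraic_algebraMap (⟨z (Sum.inl i), hl i⟩ : A)
      · have h2 : z (Sum.inr i) = 1 - z (Sum.inl i) := by
          show Ideal.Quotient.mk (idealOf (pair '' X)) (MvPolynomial.X (Sum.inr i)) =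
            Ideal.Quotient.mk (idealOf (pair '' X)) 1 -
              Ideal.Quotient.mk (idealOf (pair '' X)) (MvPolynomial.X (Sum.inl i))
          rw [← map_sub, Ideal.Quotient.eq, mem_idealOf]
          rintro _ ⟨x, hx, rfl⟩
          simp [pair]
        show IsAlgebraic A (z (Sum.inr i))
        rw [h2]
        exact isAlgebraic_algebraMap (⟨1 - z (Sum.inl i), A.sub_mem A.one_mem (hl i)⟩ : A))
    have hc : ∀ i : S, ∃ x : κ, Sum.inl x = (i : κ ⊕ κ) := fun i => hS1 i i.2
    choose c hc using hc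
    have h2 : Indep (pair '' X) (fun i : S => (Sum.inl (c i) : κ ⊕ κ)) := by
      have h3 : (fun i : S => (Sum.inl (c i) : κ ⊕ κ)) = fun i : S => (i : κ ⊕ κ) := funext hc
      rw [h3]
      exact hS2
    have h3 := (Indep.img' h2).card_le (irred_img hp)
    rw [h1, Fintype.card_coe, hS3] at h3
    exact h3
  · have h2 := dim_img_le (f := (Sum.inl : κ → κ ⊕ κ)) hp
    rwa [h1] at h2

/-- Each irreducible subset of `V` is contained in one of finitely many, whose defect is at most the
same. -/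
def Opt0 (V : Set (κ → ℂ)) : Prop :=
  ∃ 𝒴 : Set (Set (κ → ℂ)), 𝒴.Finite ∧ (∀ Y ∈ 𝒴, Irred Y ∧ Y ⊆ V) ∧
    ∀ X : Set (κ → ℂ), Irred X → X ⊆ V → ∃ Y ∈ 𝒴, X ⊆ Y ∧
      dim X + Module.finrank ℤ (rel X) ≤ dim Y + Module.finrank ℤ (rel Y)

theorem opt0_step {V : Set (κ → ℂ)} (hV : Irred V)
    (hf : ∃ f, f ∉ idealOf V ∧ ∀ X : Set (κ → ℂ), Irred X → X ⊆ V →
      dim V + Module.finrank ℤ (rel V) + 1 ≤ dim X + Module.finrank ℤ (rel X) → f ∈ idealOf X)
    (ih : ∀ U : Set (κ → ℂ), U ⊆ V → Irred U → dim U < dim V → Opt0 U) : Opt0 V := by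
  classical
  obtain ⟨f, hf, hall⟩ := hf
  set U : Set (κ → ℂ) := {x | ∃ X, (Irred X ∧ X ⊆ V ∧
    dim V + Module.finrank ℤ (rel V) + 1 ≤ dim X + Module.finrank ℤ (rel X)) ∧ x ∈ X} with hU
  have hUV : U ⊆ V := by
    rintro x ⟨X, hX, hx⟩
    exact hX.2.1 hx
  have hfU : f ∈ idealOf U := by
    rw [mem_idealOf]
    rintro x ⟨X, hX, hx⟩
    exact mem_idealOf.1 (hall X hX.1 hX.2.1 hX.2.2) x hx
  have hvan : vanishingIdeal ℂ U = idealOf U := by
    ext p
    rw [mem_vanishingIdeal_iff, mem_idealOf]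
    simp only [aeval_eq_eval]
  have hfin : (idealOf U).minimalPrimes.Finite :=
    Ideal.finite_minimalPrimes_of_isNoetherianRing _ _
  let piece : Ideal (MvPolynomial κ ℂ) → Set (κ → ℂ) := fun P => {x | x ∈ U ∧ ∀ p ∈ P, eval x p = 0}
  have hpiece : ∀ P ∈ (idealOf U).minimalPrimes, idealOf (piece P) = P := by
    intro P hP
    apply le_antisymm
    · intro p hp
      by_contra hpP
      rw [← hvan] at hP
      obtain ⟨z, hz, h1, h2⟩ := Helper834.EC.minprime_pt U P hP p hpP
      rw [mem_idealOf] at hp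
      apply h2
      rw [aeval_eq_eval]
      exact hp z ⟨hz, fun q hq => by rw [← aeval_eq_eval]; exact h1 q hq⟩
    · intro p hp
      rw [mem_idealOf]
      exact fun x hx => hx.2 p hp
  have hcov : ∀ P ∈ (idealOf U).minimalPrimes, Opt0 (piece P) := by
    intro P hP
    have hirr : Irred (piece P) := by
      unfold Irred
      rw [hpiece P hP]
      exact hP.1.1
    apply ih _ (fun x hx => hUV hx.1) hirr
    apply dim_lt hirr hV (idealOf_mono (fun x hx => hUV hx.1)) (f := f)
    · rw [hpiece P hP]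
      exact hP.1.2 hfU
    · exact hf
  choose! 𝒴 h𝒴 using hcov
  refine ⟨insert V (⋃ P ∈ (idealOf U).minimalPrimes, 𝒴 P),
    (hfin.biUnion fun P hP => (h𝒴 P hP).1).insert V, ?_, ?_⟩
  · rintro Y (rfl | hY)
    · exact ⟨hV, subset_rfl⟩
    · simp only [Set.mem_iUnion] at hY
      obtain ⟨P, hP, hY⟩ := hY
      exact ⟨((h𝒴 P hP).2.1 Y hY).1, fun x hx => hUV (((h𝒴 P hP).2.1 Y hY).2 hx).1⟩
  · intro X hX hXV
    by_cases hbig : dim V + Module.finrank ℤ (rel V) + 1 ≤ dim X + Module.finrank ℤ (rel X)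
    · have hXU : X ⊆ U := fun x hx => ⟨X, ⟨hX, hXV, hbig⟩, hx⟩
      have hXp : (idealOf X).IsPrime := hX
      obtain ⟨P, hP, hPX⟩ := Ideal.exists_minimalPrimes_le (idealOf_mono hXU)
      have hXP : X ⊆ piece P := fun x hx => ⟨hXU hx, fun p hp => mem_idealOf.1 (hPX hp) x hx⟩
      obtain ⟨Y, hY, h1, h2⟩ := (h𝒴 P hP).2.2 X hX hXP
      refine ⟨Y, Or.inr ?_, h1, h2⟩
      simp only [Set.mem_iUnion]
      exact ⟨P, hP, hY⟩
    · exact ⟨V, Or.inl rfl, hXV, by omega⟩

theorem opt0_of_zilber (H : ∀ m, Zilber m) (V : Set (κ → ℂ)) (hVL : V ⊆ line κ) (hV : Irred V) :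
    Opt0 V := by
  induction hd : dim V using Nat.strong_induction_on generalizing V with
  | _ d ih =>
    apply opt0_step hV
    · obtain ⟨f, hf, hall⟩ := not_dense_rel H (pair_torus hVL) (irred_pair hV)
      refine ⟨sub κ f, ?_, ?_⟩
      · obtain ⟨_, ⟨v, hv, rfl⟩, h1⟩ := exists_of_not_mem hf
        exact not_mem_of_eval hv (by rwa [eval_sub'])
      · intro X hX hXV hle
        have hXL := hXV.trans hVL
        have h1 := hall (pair '' X) (pair_torus hXL) (irred_pair hX) (Set.image_mono hXV) (by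
          rw [← rel_eq_tl hXL, ← rel_eq_tl hVL, dim_pair hX, dim_pair hV]
          exact hle)
        rw [mem_idealOf]
        intro x hx
        rw [eval_sub']
        exact mem_idealOf.1 h1 _ ⟨x, hx, rfl⟩
    · intro U hUV hU hlt
      exact ih _ (by omega) U (hUV.trans hVL) hU rfl

theorem irred_line : Irred (line κ) := by
  have h : line κ = {x | x ∈ (Set.univ : Set (κ → ℂ)) ∧
      eval x (∏ i, MvPolynomial.X i * (1 - MvPolynomial.X i) : MvPolynomial κ ℂ) ≠ 0} := by
    ext x
    simp only [Set.mem_ofPred_eq, Set.mem_univ, true_and, map_prod, map_mul, map_sub, map_one,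
      eval_X, Finset.prod_ne_zero_iff, Finset.mem_univ, forall_true_left, mul_ne_zero_iff]
    refine forall_congr' fun i => and_congr Iff.rfl ?_
    rw [sub_ne_zero]
    exact ⟨fun h => h.symm, fun h => h.symm⟩
  have h0 : (∏ i, MvPolynomial.X i * (1 - MvPolynomial.X i) : MvPolynomial κ ℂ) ∉
      idealOf (Set.univ : Set (κ → ℂ)) := by
    refine not_mem_of_eval (x := fun _ => 2) (Set.mem_univ _) ?_
    rw [map_prod, Finset.prod_ne_zero_iff]
    intro i _
    simp only [map_mul, map_sub, map_one, eval_X]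
    norm_num
  unfold Irred
  rw [h, idealOf_open isVar_univ.irred h0]
  exact isVar_univ.irred

theorem optFin_of_zilber (H : ∀ m, Zilber m) (t : ℕ) : OptFin κ t := by
  obtain ⟨𝒴, h1, h2, h3⟩ := opt0_of_zilber H (line κ) subset_rfl irred_line
  refine ⟨𝒴, h1, h2, fun X hX hXL => ?_⟩
  obtain ⟨Y, hY, h4, h5⟩ := h3 X hX hXL
  exact ⟨Y, hY, h4, by omega⟩

end Line

end Pool.Agent.T6.H15.UE
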