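import Pool.Agent.T6.H15.MZ.Var

/-!
# Writing a closed set by sums of terms
-/

set_option autoImplicit false

open MvPolynomial

namespace Pool.Agent.T6.H15.UE

open Pool.Agent.T6.H15.ZP Pool.Agent.T6.H15.MZ

/-- the partial sums of a sequence of terms -/
noncomputable def psum {h : ℕ} (m : ℕ → (Fin h →₀ ℕ)) (a : ℕ → ℂ) (l : ℕ) :
    MvPolynomial (Fin h) ℂ :=
  ∑ j ∈ Finset.range l, monomial (m j) (a j)

theorem psum_succ {h : ℕ} (m : ℕ → (Fin h →₀ ℕ)) (a : ℕ → ℂ) (l : ℕ) :
    psum m a (l + 1) = psum m a l + monomial (m l) (a l) := Finset.sum_range_succ _ _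

theorem exists_terms {h : ℕ} (F : Finset (MvPolynomial (Fin h) ℂ)) :
    ∃ (M : ℕ) (m : ℕ → (Fin h →₀ ℕ)) (a : ℕ → ℂ) (cuts : Set ℕ), (∀ l, a l ≠ 0) ∧ M ∈ cuts ∧
      (∀ l ∈ cuts, l ≤ M) ∧
      ∀ x : Fin h → ℂ, (∀ l ∈ cuts, eval x (psum m a l) = 0) ↔ ∀ f ∈ F, eval x f = 0 := by
  classical
  induction F using Finset.induction_on with
  | empty =>
    refine ⟨0, fun _ => 0, fun _ => 1, {0}, fun _ => one_ne_zero, rfl, fun l hl => by
      rw [Set.mem_singleton_iff.1 hl], fun x => ?_⟩
    constructor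
    · intro _ f hf
      exact absurd hf (Finset.notMem_empty f)
    · rintro _ l rfl
      simp [psum]
  | insert f F hf ih =>
    obtain ⟨M, m, a, cuts, ha, hM, hle, hx⟩ := ih
    set N := f.support.card with hN
    let e := f.support.equivFin
    set m' : ℕ → (Fin h →₀ ℕ) := fun l => if l < M then m l else
      if hl : l - M < N then (e.symm ⟨l - M, hl⟩ : Fin h →₀ ℕ) else 0 with hm'
    set a' : ℕ → ℂ := fun l => if l < M then a l else
      if hl : l - M < N then coeff (e.symm ⟨l - M, hl⟩ : Fin h →₀ ℕ) f else 1 with ha'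
    have h1 : ∀ l ≤ M, psum m' a' l = psum m a l := by
      intro l hl
      unfold psum
      refine Finset.sum_congr rfl fun j hj => ?_
      have hj' : j < M := lt_of_lt_of_le (Finset.mem_range.1 hj) hl
      simp only [hm', ha', hj', if_true]
    have h2 : psum m' a' (M + N) = psum m a M + f := by
      have h3 : psum m' a' (M + N) = psum m' a' M +
          ∑ j ∈ Finset.range N, monomial (m' (M + j)) (a' (M + j)) := Finset.sum_range_add _ _ _
      rw [h3, h1 M le_rfl]
      congr 1
      have h4 : ∀ j : Fin N, monomial (m' (M + j)) (a' (M + j)) =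
          monomial (e.symm j : Fin h →₀ ℕ) (coeff (e.symm j : Fin h →₀ ℕ) f) := by
        intro j
        have hj1 : ¬ (M + (j : ℕ) < M) := by omega
        have hj2 : M + (j : ℕ) - M < N := by
          have := j.2
          omega
        have hj3 : (⟨M + (j : ℕ) - M, hj2⟩ : Fin N) = j := by
          apply Fin.ext
          show M + (j : ℕ) - M = j
          omega
        simp only [hm', ha', hj1, if_false, hj2, dif_pos, hj3]
      rw [Finset.sum_range]
      rw [Finset.sum_congr rfl fun j _ => h4 j]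
      have h5 : ∑ j : Fin N, monomial (e.symm j : Fin h →₀ ℕ) (coeff (e.symm j : Fin h →₀ ℕ) f) =
          ∑ v : f.support, monomial (v : Fin h →₀ ℕ) (coeff (v : Fin h →₀ ℕ) f) :=
        Equiv.sum_comp e.symm (fun v : f.support =>
          monomial (v : Fin h →₀ ℕ) (coeff (v : Fin h →₀ ℕ) f))
      rw [h5, Finset.sum_coe_sort f.support fun v => monomial v (coeff v f)]
      exact support_sum_monomial_coeff f
    refine ⟨M + N, m', a', cuts ∪ {M + N}, ?_, Or.inr rfl, ?_, ?_⟩
    · intro l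
      simp only [ha']
      split_ifs with g1 g2
      · exact ha l
      · exact mem_support_iff.1 (e.symm ⟨l - M, g2⟩).2
      · exact one_ne_zero
    · rintro l (hl | hl)
      · have := hle l hl
        omega
      · rw [Set.mem_singleton_iff] at hl
        omega
    · intro x
      have hcut : (∀ l ∈ cuts ∪ {M + N}, eval x (psum m' a' l) = 0) ↔
          (∀ l ∈ cuts, eval x (psum m a l) = 0) ∧ eval x (psum m a M + f) = 0 := by
        constructor
        · intro hall
          refine ⟨fun l hl => ?_, ?_⟩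
          · rw [← h1 l (hle l hl)]
            exact hall l (Or.inl hl)
          · rw [← h2]
            exact hall _ (Or.inr rfl)
        · rintro ⟨hall, hlast⟩ l (hl | hl)
          · rw [h1 l (hle l hl)]
            exact hall l hl
          · rw [Set.mem_singleton_iff] at hl
            rw [hl, h2]
            exact hlast
      rw [hcut, Finset.forall_mem_insert, map_add, ← hx x]
      constructor
      · rintro ⟨g1, g2⟩
        rw [g1 M hM, zero_add] at g2
        exact ⟨g2, g1⟩
      · rintro ⟨g1, g2⟩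
        exact ⟨g2, by rw [g2 M hM, g1, zero_add]⟩

/-- The closed set is given by the vanishing of some of the partial sums; all the partial sums,
increased by the constant `lam`, are different from zero. -/
structure Enc {h : ℕ} (V : Set (Fin h → ℂ)) where
  M : ℕ
  m : ℕ → (Fin h →₀ ℕ)
  a : ℕ → ℂ
  lam : ℂ
  cuts : Set ℕ
  ha : ∀ l < M, a l ≠ 0 ∧ a l ≠ 1
  hlam : lam ≠ 0 ∧ lam ≠ 1
  hw : ∀ l ≤ M, C lam + psum m a l ∉ idealOf V
  hle : ∀ l ∈ cuts, l ≤ M
  hcut : ∀ l ∈ cuts, psum m a l ∈ idealOf V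
  hgen : ∀ x, (∀ l ∈ cuts, eval x (psum m a l) = 0) → x ∈ zcl V

theorem exists_enc {h : ℕ} {V : Set (Fin h → ℂ)} (hV : Irred V) : Nonempty (Enc V) := by
  classical
  obtain ⟨F, hF⟩ := (isNoetherian_def.1 (inferInstance : IsNoetherian (MvPolynomial (Fin h) ℂ)
    (MvPolynomial (Fin h) ℂ))) (idealOf V)
  obtain ⟨M, m, a, cuts, ha, -, hle, hx⟩ := exists_terms F
  -- scaling
  obtain ⟨τ, hτ⟩ : ∃ τ : ℂ, τ ∉ insert 0 ((Finset.range M).image fun l => (a l)⁻¹) :=
    Infinite.exists_notMem_finset _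
  rw [Finset.mem_insert, not_or] at hτ
  obtain ⟨hτ0, hτ1⟩ := hτ
  set a' : ℕ → ℂ := fun l => τ * a l with ha'
  have hps : ∀ l, psum m a' l = C τ * psum m a l := by
    intro l
    unfold psum
    rw [Finset.mul_sum]
    refine Finset.sum_congr rfl fun j _ => ?_
    rw [C_mul_monomial]
  have hbad : ∀ l, {c : ℂ | C c + psum m a' l ∈ idealOf V}.Finite := by
    intro l
    apply Set.Subsingleton.finite
    intro c hc d hd
    rw [Set.mem_ofPred_eq, mem_idealOf] at hc hd
    obtain ⟨v, hv⟩ := hV.nonempty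
    have h1 := hc v hv
    have h2 := hd v hv
    rw [map_add, eval_C] at h1 h2
    linear_combination h1 - h2
  obtain ⟨lam, hlam⟩ : ∃ lam : ℂ, lam ∉ ({0, 1} ∪ ⋃ l ∈ Set.Iic M,
      {c : ℂ | C c + psum m a' l ∈ idealOf V} : Set ℂ) := by
    have h1 : ({0, 1} ∪ ⋃ l ∈ Set.Iic M,
      {c : ℂ | C c + psum m a' l ∈ idealOf V} : Set ℂ).Finite :=
      (Set.toFinite _).union ((Set.finite_Iic M).biUnion fun l _ => hbad l)
    exact h1.infinite_compl.nonempty
  rw [Set.mem_union, not_or] at hlam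
  have hevz : ∀ x : Fin h → ℂ, ∀ l, eval x (psum m a' l) = 0 ↔ eval x (psum m a l) = 0 := by
    intro x l
    rw [hps, map_mul, eval_C, mul_eq_zero]
    exact ⟨fun h => h.resolve_left hτ0, Or.inr⟩
  refine ⟨⟨M, m, a', lam, cuts, ?_, ?_, ?_, hle, ?_, ?_⟩⟩
  · intro l hl
    refine ⟨mul_ne_zero hτ0 (ha l), fun h1 => hτ1 ?_⟩
    rw [Finset.mem_image]
    refine ⟨l, Finset.mem_range.2 hl, ?_⟩
    rw [eq_comm]
    exact eq_inv_of_mul_eq_one_left h1
  · refine ⟨fun h1 => hlam.1 (Or.inl h1), fun h1 => hlam.1 (Or.inr h1)⟩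
  · intro l hl hmem
    apply hlam.2
    simp only [Set.mem_iUnion]
    exact ⟨l, hl, hmem⟩
  · intro l hl
    rw [mem_idealOf]
    intro v hv
    rw [hevz]
    refine (hx v).2 (fun f hf => ?_) l hl
    have h1 : f ∈ idealOf V := by
      rw [← hF]
      exact Ideal.subset_span hf
    exact mem_idealOf.1 h1 v hv
  · intro x hall
    have h1 := (hx x).1 fun l hl => (hevz x l).1 (hall l hl)
    have h2 : idealOf V ≤ RingHom.ker (eval x : MvPolynomial (Fin h) ℂ →+* ℂ) := by
      rw [← hF]
      show Ideal.span _ ≤ _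
      rw [Ideal.span_le]
      intro f hf
      exact h1 f hf
    intro f hf
    exact h2 hf

end Pool.Agent.T6.H15.UE
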