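import Pool.Agent.T6.H15.UE.Pts

/-!
# The conjecture of Zilber and the powers of the line `u + v = 1`
-/

set_option autoImplicit false

open MvPolynomial

namespace Pool.Agent.T6.H15.UE

open Pool.Agent.T6.H15.ZP Pool.Agent.T6.H15.MZ

/-- The inequality for one power. -/
theorem card_ge {e h k : ℕ} {g : Fin e → ℂ} {V' : Set (Fin h → ℂ)} {ι T Q : Type} [Fintype ι]
    [Fintype T] [Fintype Q] {β : Fin e → ι} {copy : T → Fin h → ι}
    {idx : ι → Fin e ⊕ (T × Fin h)} {W : Set (ι → ℂ)} {E : Enc V'} {s : Q → ℂ}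
    {γg : Fin e → Q} {γa : Fin E.M → Q} {γl : Q} (hS : Split g V') (hcl : ClosedT V')
    (hP : Pow k g V' β copy idx W) (hR : Par g E s γg γa γl) {t : ℕ}
    (H : PtFin (Idx T Q h E.M) t) : k ≤ Fintype.card Q + t := by
  classical
  obtain ⟨𝒴, hfin, hY, hX⟩ := H
  set U := image s copy E W with hU
  have hUi : Irred U := irred_image hP.pow.irred (good_not_mem hS hP)
  have hUp : (idealOf U).IsPrime := hUi
  have hWp : (idealOf W).IsPrime := hP.pow.irred
  have hG : ∀ Y : Set (Idx T Q h E.M → ℂ), ∃ G : MvPolynomial (Idx T Q h E.M) ℂ,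
      G ∉ idealOf U ∧ (¬ idealOf Y ≤ idealOf U → G ∈ idealOf Y) := by
    intro Y
    by_cases hle : idealOf Y ≤ idealOf U
    · exact ⟨1, fun h1 => hUp.ne_top ((Ideal.eq_top_iff_one _).2 h1), fun h1 => absurd hle h1⟩
    · obtain ⟨G, h1, h2⟩ := SetLike.not_le_iff_exists.1 hle
      exact ⟨G, h2, fun _ => h1⟩
  choose G hG1 hG2 using hG
  set P := ∏ Y ∈ hfin.toFinset, G Y with hPdef
  have hPU : P ∉ idealOf U := by
    rw [hPdef, hUp.prod_mem_iff]
    rintro ⟨Y, -, h1⟩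
    exact hG1 Y h1
  obtain ⟨H, hH⟩ := exists_pull_rat (num s copy E) (den copy E) P
  have hHW : H ∉ idealOf W := by
    obtain ⟨_, ⟨w, ⟨hw, hg⟩, rfl⟩, h1⟩ := exists_of_not_mem hPU
    exact not_mem_of_eval hw fun h2 => h1 ((hH w (den_ne_zero hg)).1 h2)
  obtain ⟨x, hxW, hfx, Λ, hΛ, hdim⟩ := dense_points hP.pow.torus (hP.closed hcl) hP.pow.dense
    (f := good copy E * H) (fun h1 => by
      rcases hWp.mem_or_mem h1 with h2 | h2
      · exact good_not_mem hS hP h2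
      · exact hHW h2)
  rw [map_mul] at hfx
  have hgx := left_ne_zero_of_mul hfx
  have hHx := right_ne_zero_of_mul hfx
  obtain ⟨Y, hY1, hXY, hle⟩ := hX (phi s copy E x) (phi_line hP hR hxW hgx)
  have hYU : idealOf Y ≤ idealOf U := by
    by_contra hcon
    have h1 := hG2 Y hcon
    apply hHx
    rw [hH x (den_ne_zero hgx), hPdef, map_prod]
    apply Finset.prod_eq_zero (hfin.mem_toFinset.2 hY1)
    exact mem_idealOf.1 h1 _ hXY
  have h1 := upper hS hP hR (hY Y hY1).1 (hY Y hY1).2 hYU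
  have h3 := rank_ge (s := s) (E := E) hS hP hR (Set.singleton_subset_iff.2 hxW) hΛ
  have h4 : image s copy E {x} = {phi s copy E x} := by
    ext y
    constructor
    · rintro ⟨w, ⟨hw, -⟩, rfl⟩
      rw [Set.mem_singleton_iff.1 hw]
      rfl
    · rintro rfl
      exact ⟨x, ⟨rfl, hgx⟩, rfl⟩
  rw [h4] at h3
  omega

theorem no_split {e h : ℕ} {g : Fin e → ℂ} {V₀ : Set (Fin h → ℂ)} (hS₀ : Split g V₀) (hh : 0 < h)
    (H : ∀ ε : ℝ, 0 < ε → ∀ m : ℕ, ∃ K, m ≤ K ∧ PtFin (Fin K) ⌊ε * K⌋₊) : False := by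
  classical
  obtain ⟨hS, hcl⟩ := Split.closure hS₀
  set V' : Set (Fin h → ℂ) := {v | (∀ j, v j ≠ 0) ∧ v ∈ zcl V₀} with hV'
  obtain ⟨E⟩ := exists_enc hS.irred
  set K1 := h + E.M with hK1
  have hK1pos : 0 < K1 := by omega
  set q0 := e + E.M + 1 with hq0
  obtain ⟨K, hK, hopt⟩ := H (1 / (2 * K1)) (by positivity) (q0 + K1 * (3 * (q0 + K1) + 1))
  set k := (K - q0) / K1 with hk
  set j := (K - q0) % K1 with hj
  have hKq : q0 ≤ K := by
    have := Nat.zero_le (K1 * (3 * (q0 + K1) + 1))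
    omega
  have hKk : K = q0 + j + k * K1 := by
    have h1 := Nat.div_add_mod (K - q0) K1
    rw [← hk, ← hj, mul_comm] at h1
    omega
  have hjK : j < K1 := Nat.mod_lt _ hK1pos
  have hkk : 3 * (q0 + K1) + 1 ≤ k := by
    rw [hk, Nat.le_div_iff_mul_le hK1pos, mul_comm]
    omega
  obtain ⟨ι, T, _, _, β, copy, idx, W, hP⟩ := exists_pow hS k
  let Q : Type := (Fin e ⊕ (Fin E.M ⊕ Unit)) ⊕ Fin j
  let s : Q → ℂ := Sum.elim (Sum.elim g (Sum.elim (fun l => E.a l) fun _ => E.lam)) fun _ => 2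
  have hR : Par g E s (fun i => (Sum.inl (Sum.inl i) : Q)) (fun l => (Sum.inl (Sum.inr (Sum.inl l)) : Q))
      (Sum.inl (Sum.inr (Sum.inr ()))) := by
    refine ⟨?_, fun i => rfl, fun i i' hii => Sum.inl_injective (Sum.inl_injective hii), fun l => rfl, rfl⟩
    rintro ((i | (l | u)) | j)
    · refine ⟨hS.gne i, fun h1 => ?_⟩
      refine hS.indep (Pi.single i 1) ?_ ?_
      · intro h2
        have h3 := congrFun h2 i
        rw [Pi.single_eq_same] at h3
        exact one_ne_zero h3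
      · rw [chr_single]
        have h2 : g i = 1 := h1
        rw [h2]
        exact RootU.one
    · exact E.ha l l.2
    · exact E.hlam
    · exact ⟨two_ne_zero, by
        show (2 : ℂ) ≠ 1
        norm_num⟩
  have hcardQ : Fintype.card Q = q0 + j := by
    show Fintype.card ((Fin e ⊕ (Fin E.M ⊕ Unit)) ⊕ Fin j) = _
    simp only [Fintype.card_sum, Fintype.card_fin, Fintype.card_unit]
    omega
  have hcard : Fintype.card (Idx T Q h E.M) = K := by
    show Fintype.card (Q ⊕ (T × (Fin h ⊕ Fin E.M))) = K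
    have hJ : Fintype.card (Fin h ⊕ Fin E.M) = K1 := by
      rw [Fintype.card_sum, Fintype.card_fin, Fintype.card_fin]
    rw [Fintype.card_sum (α := Q), Fintype.card_prod, hJ, hcardQ, hP.cardT, hKk]
  have H1 : PtFin (Idx T Q h E.M) ⌊1 / (2 * (K1 : ℝ)) * K⌋₊ :=
    hopt.transport (Fintype.equivFinOfCardEq hcard).symm
  have h1 := card_ge hS hcl hP hR H1
  rw [hcardQ] at h1
  have h2 : (⌊1 / (2 * (K1 : ℝ)) * K⌋₊ : ℝ) ≤ 1 / (2 * (K1 : ℝ)) * K :=
    Nat.floor_le (by positivity)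
  have h3 : 2 * K1 * ⌊1 / (2 * (K1 : ℝ)) * K⌋₊ ≤ K := by
    have h4 : (2 * (K1 : ℝ)) * ⌊1 / (2 * (K1 : ℝ)) * K⌋₊ ≤ K := by
      calc (2 * (K1 : ℝ)) * ⌊1 / (2 * (K1 : ℝ)) * K⌋₊ ≤ (2 * (K1 : ℝ)) * (1 / (2 * (K1 : ℝ)) * K) :=
            mul_le_mul_of_nonneg_left h2 (by positivity)
        _ = K := by
          have : (K1 : ℝ) ≠ 0 := by positivity
          field_simp
    exact_mod_cast h4
  set t := ⌊1 / (2 * (K1 : ℝ)) * K⌋₊ with ht
  have h5 : 2 * K1 * k ≤ 2 * K1 * (q0 + j + t) := Nat.mul_le_mul_left _ h1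
  have h6 : K1 * k ≤ (2 * K1 + 1) * (q0 + j) := by
    have h7 : 2 * K1 * (q0 + j + t) = 2 * K1 * (q0 + j) + 2 * K1 * t := by ring
    have h8 : (2 * K1 + 1) * (q0 + j) = 2 * K1 * (q0 + j) + (q0 + j) := by ring
    have h9 : 2 * K1 * k = K1 * k + k * K1 := by ring
    omega
  have h7 : K1 * k ≤ K1 * (3 * (q0 + j)) := by
    refine h6.trans ?_
    have h8 : q0 + j ≤ K1 * (q0 + j) := Nat.le_mul_of_pos_left _ hK1pos
    have h9 : (2 * K1 + 1) * (q0 + j) = 2 * (K1 * (q0 + j)) + (q0 + j) := by ring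
    have h10 : K1 * (3 * (q0 + j)) = 3 * (K1 * (q0 + j)) := by ring
    omega
  have h8 := Nat.le_of_mul_le_mul_left h7 hK1pos
  omega

theorem covered_of_pt (H : ∀ ε : ℝ, 0 < ε → ∀ m : ℕ, ∃ K, m ≤ K ∧ PtFin (Fin K) ⌊ε * K⌋₊)
    {ι : Type} [Fintype ι] (V : Set (ι → ℂ)) (ht : InTorus V) (hV : Irred V) : Covered V := by
  induction hd : dim V using Nat.strong_induction_on generalizing V with
  | _ d ih =>
    by_cases hns : Nonspecial V
    · by_cases hde : DenseExcess V 1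
      · exfalso
        obtain ⟨e, h, g, V', hS, -, hh⟩ := exists_split hV ht hns hde
        exact no_split hS hh H
      · exact covered_of_not_dense ht hV hde fun U hU1 hU2 hU3 => ih _ (by omega) U hU1 hU2 rfl
    · unfold Nonspecial at hns
      push Not at hns
      obtain ⟨a, ha, c, hc, hac⟩ := hns
      refine ⟨{(a, c)}, Set.finite_singleton _, ?_, ?_⟩
      · rintro p rfl
        exact ⟨ha, hc⟩
      · intro X hX
        exact ⟨(a, c), rfl, fun x hx => hac x (hX.2.1 hx)⟩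

theorem zilber_of_pt (H : ∀ ε : ℝ, 0 < ε → ∀ m : ℕ, ∃ K, m ≤ K ∧ PtFin (Fin K) ⌊ε * K⌋₊)
    (n : ℕ) : Zilber n :=
  zilber_of_covered fun V ht hV => covered_of_pt H V ht hV


/-- **Main theorem.** -/
theorem main : List.TFAE [∀ n, Zilber n, ∀ K, OptFin (Fin K) 0,
    ∀ ε : ℝ, 0 < ε → ∀ m : ℕ, ∃ K, m ≤ K ∧ PtFin (Fin K) ⌊ε * K⌋₊] := by
  tfae_have 1 → 2 := fun H K => optFin_of_zilber H 0
  tfae_have 2 → 3 := by
    intro H ε _ m
    refine ⟨m, le_rfl, ?_⟩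
    obtain ⟨𝒴, h1, h2, h3⟩ := (H m).ptFin
    refine ⟨𝒴, h1, h2, fun x hx => ?_⟩
    obtain ⟨Y, hY, h4, h5⟩ := h3 x hx
    exact ⟨Y, hY, h4, by omega⟩
  tfae_have 3 → 1 := zilber_of_pt
  tfae_finish

end Pool.Agent.T6.H15.UE
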