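import Pool.Agent.T6.H15.MZ.Var
import Pool.Agent.T6.H15.ZP.Final
import Pool.Agent.R452.SZ.Alg

/-!
# Powers of the line `u + v = 1`: multiplicative relations on subvarieties

The points of the `κ`-th power of the line `{(u, v) | u + v = 1, u, v ≠ 0}` are given by their
coordinates `u`; a relation is a character of the torus of the pairs `(u, v)` which is constant, with a
root of unity as value.
-/

set_option autoImplicit false

open MvPolynomial

namespace Pool.Agent.T6.H15.UE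

open Pool.Agent.T6.H15.ZP Pool.Agent.T6.H15.MZ

section Basic

variable {κ : Type}

/-- The `u`-coordinates of the points of the power of the line. -/
def line (κ : Type) : Set (κ → ℂ) := {y | ∀ i, y i ≠ 0 ∧ y i ≠ 1}

/-- All coordinates of the point with `u`-coordinates `y`. -/
def pair (y : κ → ℂ) : κ ⊕ κ → ℂ := Sum.elim y fun i => 1 - y i

theorem pair_ne_zero {y : κ → ℂ} (hy : y ∈ line κ) (i : κ ⊕ κ) : pair y i ≠ 0 := by
  rcases i with i | i
  · exact (hy i).1
  · show 1 - y i ≠ 0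
    rw [sub_ne_zero]
    exact (hy i).2.symm

/-- the substitution -/
noncomputable def sub (κ : Type) : MvPolynomial (κ ⊕ κ) ℂ →ₐ[ℂ] MvPolynomial κ ℂ :=
  aeval (Sum.elim MvPolynomial.X fun i => 1 - MvPolynomial.X i)

theorem eval_sub' (y : κ → ℂ) (f : MvPolynomial (κ ⊕ κ) ℂ) :
    eval y (sub κ f) = eval (pair y) f := by
  rw [← aeval_eq_eval, ← aeval_eq_eval]
  have h : (aeval y).comp (sub κ) = (aeval (pair y) : MvPolynomial (κ ⊕ κ) ℂ →ₐ[ℂ] ℂ) := by
    ext i
    rcases i with i | i <;> simp [sub, pair]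
  exact DFunLike.congr_fun h f

theorem irred_pair {Y : Set (κ → ℂ)} (hY : Irred Y) : Irred (pair '' Y) := by
  have key : ∀ f, f ∈ idealOf (pair '' Y) ↔ sub κ f ∈ idealOf Y := by
    intro f
    rw [mem_idealOf, mem_idealOf]
    constructor
    · intro h y hy
      rw [eval_sub']
      exact h _ ⟨y, hy, rfl⟩
    · rintro h _ ⟨y, hy, rfl⟩
      rw [← eval_sub']
      exact h y hy
  rw [irred_iff] at hY ⊢
  refine ⟨hY.1.image _, fun f g hf hg hfg => ?_⟩
  rw [key] at hf hg hfg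
  rw [map_mul] at hfg
  exact hY.2 _ _ hf hg hfg

theorem pair_torus {Y : Set (κ → ℂ)} (hY : Y ⊆ line κ) : InTorus (pair '' Y) := by
  rintro _ ⟨y, hy, rfl⟩ i
  exact pair_ne_zero (hY hy) i

theorem exists_binomial' {ι : Type} [Fintype ι] (a : ι → ℤ) (c : ℂ) : ∃ f : MvPolynomial ι ℂ,
    ∀ y : ι → ℂ, (∀ i, y i ≠ 0) → (eval y f = 0 ↔ chr y a = c) := by
  refine ⟨∏ i, X i ^ (a i).toNat - C c * ∏ i, X i ^ (-a i).toNat, fun y hy => ?_⟩
  have h1 : (∏ i, y i ^ a i) * ∏ i, y i ^ (-a i).toNat = ∏ i, y i ^ (a i).toNat := by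
    rw [← Finset.prod_mul_distrib]
    refine Finset.prod_congr rfl fun i _ => ?_
    rw [← zpow_natCast, ← zpow_natCast, ← zpow_add₀ (hy i)]
    congr 1
    omega
  have h2 : (∏ i, y i ^ (-a i).toNat) ≠ 0 :=
    Finset.prod_ne_zero_iff.2 fun i _ => pow_ne_zero _ (hy i)
  have h3 : eval y (∏ i, X i ^ (a i).toNat - C c * ∏ i, X i ^ (-a i).toNat :
      MvPolynomial ι ℂ) = (∏ i, y i ^ a i - c) * ∏ i, y i ^ (-a i).toNat := by
    rw [sub_mul, h1]
    simp
  rw [h3, mul_eq_zero, sub_eq_zero]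
  exact ⟨fun h => h.resolve_right h2, Or.inl⟩

end Basic

section Rel

variable {κ : Type} [Fintype κ]

/-- the polynomial of a relation -/
theorem exists_relPoly (a : κ ⊕ κ → ℤ) (c : ℂ) : ∃ f : MvPolynomial κ ℂ,
    ∀ y ∈ line κ, (eval y f = 0 ↔ chr (pair y) a = c) := by
  obtain ⟨f, hf⟩ := exists_binomial' a c
  refine ⟨sub κ f, fun y hy => ?_⟩
  rw [eval_sub']
  exact hf _ (pair_ne_zero hy)

/-- The group of the relations which hold on `Y`. -/
def rel (Y : Set (κ → ℂ)) : Submodule ℤ (κ ⊕ κ → ℤ) :=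
  Submodule.span ℤ {a | ∃ c, RootU c ∧ ∀ y ∈ Y, chr (pair y) a = c}

theorem mem_rel {Y : Set (κ → ℂ)} (hY : Y ⊆ line κ) {a : κ ⊕ κ → ℤ} :
    a ∈ rel Y ↔ ∃ c, RootU c ∧ ∀ y ∈ Y, chr (pair y) a = c := by
  constructor
  · intro ha
    induction ha using Submodule.span_induction with
    | mem x hx => exact hx
    | zero => exact ⟨1, RootU.one, fun y _ => chr_zero _⟩
    | add x x' _ _ h1 h2 =>
      obtain ⟨c, hc, h1⟩ := h1
      obtain ⟨d, hd, h2⟩ := h2
      exact ⟨c * d, hc.mul hd, fun y hy => by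
        rw [chr_add (pair_ne_zero (hY hy)), h1 y hy, h2 y hy]⟩
    | smul m x _ h1 =>
      obtain ⟨c, hc, h1⟩ := h1
      exact ⟨c ^ m, hc.zpow m, fun y hy => by rw [chr_zsmul, h1 y hy]⟩
  · intro h
    exact Submodule.subset_span h

/-- If `U` is contained in the closure of `Y` then a relation on `Y` holds on `U` with the same value. -/
theorem rel_closure {Y U : Set (κ → ℂ)} (hY : Y ⊆ line κ) (hU : U ⊆ line κ)
    (h : idealOf Y ≤ idealOf U) {a : κ ⊕ κ → ℤ} {c : ℂ} (hc : ∀ y ∈ Y, chr (pair y) a = c) :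
    ∀ y ∈ U, chr (pair y) a = c := by
  obtain ⟨f, hf⟩ := exists_relPoly a c
  have h1 : f ∈ idealOf Y := by
    rw [mem_idealOf]
    exact fun y hy => (hf y (hY hy)).2 (hc y hy)
  intro y hy
  exact (hf y (hU hy)).1 (mem_idealOf.1 (h h1) y hy)

theorem rel_le {Y U : Set (κ → ℂ)} (hY : Y ⊆ line κ) (hU : U ⊆ line κ)
    (h : idealOf Y ≤ idealOf U) : rel Y ≤ rel U := by
  intro a ha
  obtain ⟨c, hc, h1⟩ := (mem_rel hY).1 ha
  exact (mem_rel hU).2 ⟨c, hc, rel_closure hY hU h h1⟩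

theorem rel_sat {Y : Set (κ → ℂ)} (hI : Irred Y) (hY : Y ⊆ line κ) {a : κ ⊕ κ → ℤ} {m : ℤ}
    (hm : m ≠ 0) (ha : m • a ∈ rel Y) : a ∈ rel Y := by
  obtain ⟨c, hc, h1⟩ := (mem_rel hY).1 ha
  have h2 : IsConst (pair '' Y) (m • a) c := by
    rintro _ ⟨y, hy, rfl⟩
    exact h1 y hy
  obtain ⟨c', h3, h4⟩ := IsConst.of_smul (irred_pair hI) (pair_torus hY) hm h2
  refine (mem_rel hY).2 ⟨c', rootU_of_zpow hm (by rw [h4]; exact hc), fun y hy => ?_⟩
  exact h3 _ ⟨y, hy, rfl⟩

theorem finrank_rel_le (Y : Set (κ → ℂ)) : Module.finrank ℤ (rel Y) ≤ 2 * Fintype.card κ := by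
  have h := Submodule.finrank_le (rel Y)
  rw [Module.finrank_fintype_fun_eq_card, Fintype.card_sum] at h
  omega

theorem finrank_lt_of {L L' : Submodule ℤ (κ ⊕ κ → ℤ)} (hL : L ≤ L')
    (hsat : ∀ (a : κ ⊕ κ → ℤ) (m : ℤ), m ≠ 0 → m • a ∈ L → a ∈ L) {a : κ ⊕ κ → ℤ} (ha : a ∈ L')
    (ha' : a ∉ L) : Module.finrank ℤ L + 1 ≤ Module.finrank ℤ L' := by
  let φ : (L × ℤ) →ₗ[ℤ] L' := (Submodule.inclusion hL).coprod
    (LinearMap.toSpanSingleton ℤ L' ⟨a, ha⟩)
  have hφ : ∀ p, ((φ p : L') : κ ⊕ κ → ℤ) = (p.1 : κ ⊕ κ → ℤ) + p.2 • a := by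
    intro p
    show (((Submodule.inclusion hL).coprod
      (LinearMap.toSpanSingleton ℤ L' ⟨a, ha⟩) p : L') : κ ⊕ κ → ℤ) = _
    rw [LinearMap.coprod_apply]
    rfl
  have hinj : Function.Injective φ := by
    rw [← LinearMap.ker_eq_bot, Submodule.eq_bot_iff]
    intro p hp
    rw [LinearMap.mem_ker] at hp
    have h1 := hφ p
    rw [hp] at h1
    have h2 : p.2 = 0 := by
      by_contra hne
      apply ha'
      apply hsat a p.2 hne
      have h3 : p.2 • a = -(p.1 : κ ⊕ κ → ℤ) := by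
        rw [eq_neg_iff_add_eq_zero, add_comm]
        exact h1.symm
      rw [h3]
      exact L.neg_mem p.1.2
    have h4 : p.1 = 0 := by
      apply Subtype.ext
      rw [h2, zero_smul, add_zero] at h1
      exact h1.symm
    exact Prod.ext h4 h2
  have h := LinearMap.finrank_le_finrank_of_injective hinj
  rwa [Module.finrank_prod, Module.finrank_self] at h

end Rel

section Krull

variable {κ : Type} [Fintype κ]

/-- the principal ideal theorem -/
theorem krull_step {Y U : Set (κ → ℂ)} (hY : Irred Y) (hU : Irred U) (hUL : U ⊆ line κ)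
    (h : idealOf Y ≤ idealOf U) {f : MvPolynomial κ ℂ} (hf : f ∈ idealOf U) :
    ∃ Y', Irred Y' ∧ Y' ⊆ line κ ∧ idealOf Y ≤ idealOf Y' ∧ idealOf Y' ≤ idealOf U ∧
      f ∈ idealOf Y' ∧ dim Y ≤ dim Y' + 1 := by
  classical
  have hYp : (idealOf Y).IsPrime := hY
  have hUp : (idealOf U).IsPrime := hU
  have hle : idealOf Y ⊔ Ideal.span {f} ≤ idealOf U := by
    rw [sup_le_iff]
    refine ⟨h, ?_⟩
    rw [Ideal.span_le, Set.singleton_subset_iff]
    exact hf
  obtain ⟨q, hq, hqU⟩ := Ideal.exists_minimalPrimes_le hle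
  have hqp : q.IsPrime := hq.1.1
  have hYq : idealOf Y ≤ q := le_sup_left.trans hq.1.2
  have hfq : f ∈ q := hq.1.2 ((le_sup_right : Ideal.span {f} ≤ idealOf Y ⊔ Ideal.span {f})
    (Ideal.mem_span_singleton_self f))
  set Y' : Set (κ → ℂ) := {y | y ∈ line κ ∧ ∀ g ∈ q, eval y g = 0} with hY'
  have hI : idealOf Y' = q := by
    apply le_antisymm
    · intro g hg
      rw [mem_idealOf] at hg
      set D : MvPolynomial κ ℂ := ∏ i, X i * (1 - X i) with hD
      have h1 : g * D ∈ vanishingIdeal ℂ (zeroLocus ℂ q) := by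
        rw [mem_vanishingIdeal_iff]
        intro y hy
        rw [mem_zeroLocus_iff] at hy
        rw [aeval_eq_eval]
        by_cases hyl : y ∈ line κ
        · rw [map_mul, hg y ⟨hyl, fun p hp => by rw [← aeval_eq_eval]; exact hy p hp⟩, zero_mul]
        · have h2 : eval y D = 0 := by
            rw [hD, map_prod]
            have h3 : ∃ i, ¬ (y i ≠ 0 ∧ y i ≠ 1) := by
              by_contra hcon
              push Not at hcon
              exact hyl hcon
            obtain ⟨i, hi⟩ := h3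
            apply Finset.prod_eq_zero (Finset.mem_univ i)
            rw [map_mul, map_sub, map_one, eval_X]
            by_cases h0 : y i = 0
            · rw [h0, zero_mul]
            · have h4 : y i = 1 := by
                by_contra h5
                exact hi ⟨h0, h5⟩
              rw [h4, sub_self, mul_zero]
          rw [map_mul, h2, mul_zero]
      rw [vanishingIdeal_zeroLocus_eq_radical, hqp.radical] at h1
      rcases hqp.mem_or_mem h1 with h2 | h2
      · exact h2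
      · exfalso
        obtain ⟨u, hu⟩ := hU.nonempty
        have h3 := mem_idealOf.1 (hqU h2) u hu
        rw [hD, map_prod, Finset.prod_eq_zero_iff] at h3
        obtain ⟨i, -, h4⟩ := h3
        rw [map_mul, map_sub, map_one, eval_X, mul_eq_zero, sub_eq_zero] at h4
        rcases h4 with h4 | h4
        · exact (hUL hu i).1 h4
        · exact (hUL hu i).2 h4.symm
    · intro g hg
      rw [mem_idealOf]
      exact fun y hy => hy.2 g hg
  have hYi : Irred Y' := by
    unfold Irred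
    rw [hI]
    exact hqp
  refine ⟨Y', hYi, fun y hy => hy.1, by rw [hI]; exact hYq, by rw [hI]; exact hqU,
    by rw [hI]; exact hfq, ?_⟩
  have h1 := R452.SZ.trdeg_le_of_minimalPrimes (K := ℂ) (idealOf Y) q f hq
  have h2 := trdeg_eq_dim hYi
  rw [hI] at h2
  rw [trdeg_eq_dim hY, h2] at h1
  exact_mod_cast h1

/-- Several equations. -/
theorem krull_finset {σ : Type} (s : Finset σ) (f : σ → MvPolynomial κ ℂ) {Y U : Set (κ → ℂ)}
    (hY : Irred Y) (hYL : Y ⊆ line κ) (hU : Irred U) (hUL : U ⊆ line κ)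
    (h : idealOf Y ≤ idealOf U) (hf : ∀ i ∈ s, f i ∈ idealOf U) :
    ∃ Y', Irred Y' ∧ Y' ⊆ line κ ∧ idealOf Y ≤ idealOf Y' ∧ idealOf Y' ≤ idealOf U ∧
      (∀ i ∈ s, f i ∈ idealOf Y') ∧ dim Y ≤ dim Y' + s.card := by
  classical
  induction s using Finset.induction_on with
  | empty => exact ⟨Y, hY, hYL, le_rfl, h, fun i hi => absurd hi (Finset.notMem_empty i), by simp⟩
  | insert i s hi ih =>
    obtain ⟨Y1, h1, h2, h3, h4, h5, h6⟩ := ih fun j hj => hf j (Finset.mem_insert_of_mem hj)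
    obtain ⟨Y2, g1, g2, g3, g4, g5, g6⟩ := krull_step h1 hU hUL h4 (hf i (Finset.mem_insert_self i s))
    refine ⟨Y2, g1, g2, h3.trans g3, g4, ?_, ?_⟩
    · intro j hj
      rcases Finset.mem_insert.1 hj with rfl | hj
      · exact g5
      · exact g3 (h5 j hj)
    · rw [Finset.card_insert_of_notMem hi]
      omega

/-- The intersection of `Y` with the smallest special subvariety which contains `U`. -/
theorem exists_full {U : Set (κ → ℂ)} (hU : Irred U) (hUL : U ⊆ line κ) (n : ℕ) :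
    ∀ Y : Set (κ → ℂ), Irred Y → Y ⊆ line κ → idealOf Y ≤ idealOf U →
      2 * Fintype.card κ ≤ Module.finrank ℤ (rel Y) + n →
      ∃ Y', Irred Y' ∧ Y' ⊆ line κ ∧ idealOf Y ≤ idealOf Y' ∧ idealOf Y' ≤ idealOf U ∧
        rel U ≤ rel Y' ∧ dim Y + Module.finrank ℤ (rel Y) ≤ dim Y' + Module.finrank ℤ (rel Y') := by
  induction n with
  | zero =>
    intro Y hY hYL h hn
    by_cases hle : rel U ≤ rel Y
    · exact ⟨Y, hY, hYL, le_rfl, h, hle, le_rfl⟩
    · exfalso
      obtain ⟨a, ha, ha'⟩ := SetLike.not_le_iff_exists.1 hle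
      have h1 := finrank_lt_of (rel_le hYL hUL h) (fun a m hm hma => rel_sat hY hYL hm hma) ha ha'
      have h2 := finrank_rel_le U
      omega
  | succ n ih =>
    intro Y hY hYL h hn
    by_cases hle : rel U ≤ rel Y
    · exact ⟨Y, hY, hYL, le_rfl, h, hle, le_rfl⟩
    · obtain ⟨a, ha, ha'⟩ := SetLike.not_le_iff_exists.1 hle
      obtain ⟨c, hc, h1⟩ := (mem_rel hUL).1 ha
      obtain ⟨f, hf⟩ := exists_relPoly a c
      have hfU : f ∈ idealOf U := by
        rw [mem_idealOf]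
        exact fun y hy => (hf y (hUL hy)).2 (h1 y hy)
      obtain ⟨Y1, g1, g2, g3, g4, g5, g6⟩ := krull_step hY hU hUL h hfU
      have haY1 : a ∈ rel Y1 := (mem_rel g2).2 ⟨c, hc, fun y hy =>
        (hf y (g2 hy)).1 (mem_idealOf.1 g5 y hy)⟩
      have h2 := finrank_lt_of (rel_le hYL g2 g3) (fun a m hm hma => rel_sat hY hYL hm hma) haY1 ha'
      obtain ⟨Y2, k1, k2, k3, k4, k5, k6⟩ := ih Y1 g1 g2 g4 (by omega)
      exact ⟨Y2, k1, k2, g3.trans k3, k4, k5, by omega⟩

end Krull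

end Pool.Agent.T6.H15.UE
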