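import Pool.Agent.T6.H15.UE.Bound

/-!
# Finiteness of the optimal subvarieties of the powers of the line: definition
-/

set_option autoImplicit false

open MvPolynomial

namespace Pool.Agent.T6.H15.UE

open Pool.Agent.T6.H15.ZP Pool.Agent.T6.H15.MZ

/-- Finitely many irreducible subsets are enough: each irreducible `X` is contained in one of them whose
defect is at most that of `X`, up to `t`. -/
def OptFin (κ : Type) [Fintype κ] (t : ℕ) : Prop :=
  ∃ 𝒴 : Set (Set (κ → ℂ)), 𝒴.Finite ∧ (∀ Y ∈ 𝒴, Irred Y ∧ Y ⊆ line κ) ∧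
    ∀ X : Set (κ → ℂ), Irred X → X ⊆ line κ → ∃ Y ∈ 𝒴, X ⊆ Y ∧
      dim X + Module.finrank ℤ (rel X) ≤ dim Y + Module.finrank ℤ (rel Y) + t

section Transport

variable {κ κ' : Type} [Fintype κ] [Fintype κ']

theorem img_line (e : κ' ≃ κ) {X : Set (κ → ℂ)} (hX : X ⊆ line κ) : img e X ⊆ line κ' := by
  rintro _ ⟨x, hx, rfl⟩ i
  exact hX hx (e i)

theorem img_img (e : κ' ≃ κ) (X : Set (κ → ℂ)) : img e.symm (img e X) = X := by
  ext x
  constructor
  · rintro ⟨_, ⟨x, hx, rfl⟩, rfl⟩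
    have h1 : (fun k => x (e (e.symm k))) = x := by
      funext k
      rw [e.apply_symm_apply]
    show (fun k => x (e (e.symm k))) ∈ X
    rw [h1]
    exact hx
  · intro hx
    refine ⟨_, ⟨x, hx, rfl⟩, ?_⟩
    funext k
    simp

theorem finrank_img_le (e : κ' ≃ κ) {X : Set (κ → ℂ)} (hX : X ⊆ line κ) :
    Module.finrank ℤ (rel (img e X)) ≤ Module.finrank ℤ (rel X) := by
  set ψ := LinearEquiv.funCongrLeft ℤ ℤ (Equiv.sumCongr e e).symm with hψ
  have h1 : (rel (img e X)).map (ψ : (κ' ⊕ κ' → ℤ) →ₗ[ℤ] (κ ⊕ κ → ℤ)) ≤ rel X := by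
    rintro _ ⟨a, ha, rfl⟩
    obtain ⟨c, hc, h2⟩ := (mem_rel (img_line e hX)).1 ha
    refine (mem_rel hX).2 ⟨c, hc, fun x hx => ?_⟩
    rw [← h2 _ ⟨x, hx, rfl⟩]
    show ∏ i, pair x i ^ a ((Equiv.sumCongr e e).symm i) = ∏ j, pair (fun k => x (e k)) j ^ a j
    rw [← Equiv.prod_comp (Equiv.sumCongr e e)]
    refine Finset.prod_congr rfl fun j _ => ?_
    rw [Equiv.symm_apply_apply]
    rcases j with j | j <;> rfl
  have h2 := Submodule.finrank_mono h1
  rwa [LinearEquiv.finrank_map_eq] at h2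

theorem finrank_img (e : κ' ≃ κ) {X : Set (κ → ℂ)} (hX : X ⊆ line κ) :
    Module.finrank ℤ (rel (img e X)) = Module.finrank ℤ (rel X) := by
  apply le_antisymm (finrank_img_le e hX)
  have h := finrank_img_le e.symm (img_line e hX)
  rwa [img_img] at h

theorem dim_img (e : κ' ≃ κ) {X : Set (κ → ℂ)} (hX : Irred X) : dim (img e X) = dim X := by
  apply le_antisymm (dim_img_le hX)
  have h := dim_img_le (f := e.symm) (irred_img (f := e) hX)
  rwa [img_img] at h

theorem OptFin.transport (e : κ' ≃ κ) {t : ℕ} (H : OptFin κ' t) : OptFin κ t := by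
  obtain ⟨𝒴, h1, h2, h3⟩ := H
  refine ⟨(fun Y => img e.symm Y) '' 𝒴, h1.image _, ?_, ?_⟩
  · rintro _ ⟨Y, hY, rfl⟩
    exact ⟨irred_img (h2 Y hY).1, img_line e.symm (h2 Y hY).2⟩
  · intro X hX hXL
    obtain ⟨Y, hY, h4, h5⟩ := h3 (img e X) (irred_img hX) (img_line e hXL)
    refine ⟨_, ⟨Y, hY, rfl⟩, ?_, ?_⟩
    · rw [← img_img e X]
      exact Set.image_mono h4
    · rw [dim_img e.symm (h2 Y hY).1, finrank_img e.symm (h2 Y hY).2]
      rw [dim_img e hX, finrank_img e hXL] at h5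
      exact h5

end Transport

end Pool.Agent.T6.H15.UE
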