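import Pool.Agent.T6.H15.MZ.Var
import Pool.Agent.T6.H15.ZP.Final

/-!
# Fibred powers with explicit coordinates
-/

set_option autoImplicit false

open MvPolynomial

namespace Pool.Agent.T6.H15.UE

open Pool.Agent.T6.H15.ZP Pool.Agent.T6.H15.MZ

theorem zcl_prod {ι κ : Type} {W : Set (ι → ℂ)} {V : Set (κ → ℂ)} {w : ι → ℂ} {v : κ → ℂ}
    (hw : w ∈ zcl W) (hv : v ∈ zcl V) : Sum.elim w v ∈ zcl (prodSet W V) := by
  intro f hf
  rw [mem_ideal_prod] at hf
  rw [← eval_fixL]
  apply hv
  rw [mem_idealOf]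
  intro v' hv'
  rw [eval_fixL, ← eval_fixR]
  apply hw
  rw [mem_idealOf]
  intro w' hw'
  rw [eval_fixR]
  exact hf w' hw' v' hv'

theorem of_zcl_prod {ι κ : Type} {W : Set (ι → ℂ)} {V : Set (κ → ℂ)} {z : ι ⊕ κ → ℂ}
    (hz : z ∈ zcl (prodSet W V)) :
    (fun i => z (Sum.inl i)) ∈ zcl W ∧ (fun j => z (Sum.inr j)) ∈ zcl V := by
  constructor
  · intro f hf
    have h := hz (rename Sum.inl f) (by
      rw [mem_ideal_prod]
      intro w hw v _
      rw [eval_rename]
      exact mem_idealOf.1 hf w hw)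
    rw [eval_rename] at h
    exact h
  · intro f hf
    have h := hz (rename Sum.inr f) (by
      rw [mem_ideal_prod]
      intro w _ v hv
      rw [eval_rename]
      exact mem_idealOf.1 hf v hv)
    rw [eval_rename] at h
    exact h

/-- `V` is closed in the torus. -/
def ClosedT {ι : Type} (V : Set (ι → ℂ)) : Prop := ∀ p, (∀ i, p i ≠ 0) → p ∈ zcl V → p ∈ V

/-- The fibred power `W` of `V'` over `g`, whose copies of `V'` are indexed by `T`. -/
structure Pow {e h : ℕ} (k : ℕ) (g : Fin e → ℂ) (V' : Set (Fin h → ℂ)) {ι T : Type} [Fintype ι]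
    [Fintype T] (β : Fin e → ι) (copy : T → Fin h → ι) (idx : ι → Fin e ⊕ (T × Fin h))
    (W : Set (ι → ℂ)) : Prop where
  pow : IsPower h k g β W
  cardT : Fintype.card T = k
  inj : Function.Injective idx
  idxβ : ∀ i, idx (β i) = Sum.inl i
  idxc : ∀ t a, idx (copy t a) = Sum.inr (t, a)
  copies : ∀ w ∈ W, ∀ t, (fun a => w (copy t a)) ∈ V'
  surj : ∀ t, ∀ v ∈ V', ∃ w ∈ W, (fun a => w (copy t a)) = v
  closure : ∀ p : ι → ℂ, (∀ i, p (β i) = g i) → (∀ t, (fun a => p (copy t a)) ∈ zcl V') →
    p ∈ zcl W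
  closed : ClosedT V' → ClosedT W

theorem exists_pow {e h : ℕ} {g : Fin e → ℂ} {V' : Set (Fin h → ℂ)} (hS : Split g V') (k : ℕ) :
    ∃ (ι T : Type) (_ : Fintype ι) (_ : Fintype T) (β : Fin e → ι) (copy : T → Fin h → ι)
      (idx : ι → Fin e ⊕ (T × Fin h)) (W : Set (ι → ℂ)), Pow k g V' β copy idx W := by
  classical
  induction k with
  | zero =>
    refine ⟨Fin e, Empty, inferInstance, inferInstance, fun i => i, fun t => t.elim,
      fun i => Sum.inl i, {g}, isPower_zero h hS.gne, rfl, Sum.inl_injective, fun i => rfl,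
      fun t => t.elim, fun w _ t => t.elim, fun t => t.elim, ?_, ?_⟩
    · intro p hp _
      have h1 : p = g := funext hp
      rw [h1]
      exact subset_zcl _ rfl
    · intro _ p _ hp
      exact (isVar_singleton g).closed p hp
  | succ k ih =>
    obtain ⟨ι, T, _, _, β, copy, idx, W, hW⟩ := ih
    refine ⟨ι ⊕ Fin h, Option T, inferInstance, inferInstance, fun i => Sum.inl (β i),
      fun t a => match t with
        | none => Sum.inr a
        | some t => Sum.inl (copy t a),
      fun x => match x with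
        | Sum.inl x => match idx x with
          | Sum.inl i => Sum.inl i
          | Sum.inr (t, a) => Sum.inr (some t, a)
        | Sum.inr a => Sum.inr (none, a),
      prodSet W V', isPower_succ hS hW.pow, ?_, ?_, ?_, ?_, ?_, ?_, ?_, ?_⟩
    · rw [Fintype.card_option, hW.cardT]
    · intro x y hxy
      rcases x with x | a <;> rcases y with y | b
      · congr 1
        apply hW.inj
        dsimp only at hxy
        rcases h1 : idx x with i | ⟨t, a⟩ <;> rcases h2 : idx y with j | ⟨t', b⟩ <;>
          rw [h1, h2] at hxy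
        · rw [Sum.inl.injEq] at hxy
          rw [hxy]
        · exact absurd hxy (by simp)
        · exact absurd hxy (by simp)
        · rw [Sum.inr.injEq, Prod.mk.injEq, Option.some.injEq] at hxy
          rw [hxy.1, hxy.2]
      · dsimp only at hxy
        rcases h1 : idx x with i | ⟨t, a⟩ <;> rw [h1] at hxy
        · exact absurd hxy (by simp)
        · exact absurd hxy (by simp)
      · dsimp only at hxy
        rcases h1 : idx y with i | ⟨t, b⟩ <;> rw [h1] at hxy
        · exact absurd hxy (by simp)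
        · exact absurd hxy (by simp)
      · dsimp only at hxy
        rw [Sum.inr.injEq, Prod.mk.injEq] at hxy
        rw [hxy.2]
    · intro i
      dsimp only
      rw [hW.idxβ]
    · intro t a
      rcases t with - | t
      · rfl
      · dsimp only
        rw [hW.idxc]
    · intro z hz t
      rcases t with - | t
      · exact hz.2
      · exact hW.copies _ hz.1 t
    · intro t v hv
      rcases t with - | t
      · obtain ⟨w, hw⟩ := hW.pow.irred.nonempty
        exact ⟨Sum.elim w v, elim_mem hw hv, rfl⟩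
      · obtain ⟨w, hw, h1⟩ := hW.surj t v hv
        exact ⟨Sum.elim w v, elim_mem hw hv, h1⟩
    · intro p hp hp'
      have h1 : p = Sum.elim (fun x => p (Sum.inl x)) (fun a => p (Sum.inr a)) := by
        funext x
        rcases x with x | a <;> rfl
      rw [h1]
      refine zcl_prod (hW.closure _ hp fun t => ?_) (hp' none)
      exact hp' (some t)
    · intro hcl p hp0 hp
      obtain ⟨h1, h2⟩ := of_zcl_prod hp
      exact ⟨hW.closed hcl _ (fun i => hp0 _) h1, hcl _ (fun i => hp0 _) h2⟩

/-- `V'` can be taken closed in the torus. -/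
theorem Split.closure {e h : ℕ} {g : Fin e → ℂ} {V' : Set (Fin h → ℂ)} (hS : Split g V') :
    Split g {v | (∀ j, v j ≠ 0) ∧ v ∈ zcl V'} ∧ ClosedT {v | (∀ j, v j ≠ 0) ∧ v ∈ zcl V'} := by
  set V := {v | (∀ j, v j ≠ 0) ∧ v ∈ zcl V'} with hV
  have hsub : V' ⊆ V := fun v hv => ⟨hS.torus v hv, subset_zcl _ hv⟩
  have hI : idealOf V = idealOf V' := by
    apply le_antisymm (idealOf_mono hsub)
    intro f hf
    rw [mem_idealOf]
    exact fun v hv => hv.2 f hf
  have hd : dim V = dim V' := by
    unfold dim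
    rw [hI]
  refine ⟨⟨hS.gne, fun v hv => hv.1, ?_, hS.indep, ?_, ?_⟩, ?_⟩
  · unfold Irred
    rw [hI]
    exact hS.irred
  · intro a ha c hc
    exact hS.nonconst a ha c fun v hv => hc v (hsub hv)
  · intro f hf
    rw [hI] at hf
    obtain ⟨X', h1, h2, h3, M, h4, h5⟩ := hS.dense f hf
    exact ⟨X', h1, h2.trans hsub, h3, M, h4, by rw [hd]; exact h5⟩
  · intro p hp0 hp
    refine ⟨hp0, ?_⟩
    intro f hf
    apply hp
    rw [hI]
    exact hf

end Pool.Agent.T6.H15.UE
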