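import Pool.Agent.T6.H15.UE.Rat
import Pool.Agent.T6.H15.UE.Enc
import Pool.Agent.T6.H15.UE.Pow

/-!
# The map from a fibred power to a power of the line
-/

set_option autoImplicit false

open MvPolynomial

namespace Pool.Agent.T6.H15.UE

open Pool.Agent.T6.H15.ZP Pool.Agent.T6.H15.MZ

/-- the index set of the coordinates `u` -/
abbrev Idx (T Q : Type) (h M : ℕ) : Type := Q ⊕ (T × (Fin h ⊕ Fin M))

section Def

variable {h : ℕ} {V' : Set (Fin h → ℂ)} {ι T Q : Type} [Fintype T]
  (s : Q → ℂ) (copy : T → Fin h → ι) (E : Enc V')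

/-- numerators -/
noncomputable def num : Idx T Q h E.M → MvPolynomial ι ℂ
  | Sum.inl q => C (s q)
  | Sum.inr (t, Sum.inl a) => X (copy t a)
  | Sum.inr (t, Sum.inr l) => rename (copy t) (C E.lam + psum E.m E.a l)

/-- denominators -/
noncomputable def den : Idx T Q h E.M → MvPolynomial ι ℂ
  | Sum.inl _ => 1
  | Sum.inr (_, Sum.inl _) => 1
  | Sum.inr (t, Sum.inr l) => rename (copy t) (C E.lam + psum E.m E.a (l + 1))

/-- the map -/
noncomputable def phi (w : ι → ℂ) : Idx T Q h E.M → ℂ :=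
  fun i => eval w (num s copy E i) / eval w (den copy E i)

/-- the values of the partial sums -/
noncomputable def wv (x : Fin h → ℂ) (l : ℕ) : ℂ := E.lam + eval x (psum E.m E.a l)

theorem wv_eq (x : Fin h → ℂ) (l : ℕ) : eval x (C E.lam + psum E.m E.a l) = wv E x l := by
  rw [map_add, eval_C]
  rfl

theorem wv_zero (x : Fin h → ℂ) : wv E x 0 = E.lam := by
  simp [wv, psum]

theorem wv_succ (x : Fin h → ℂ) (l : ℕ) :
    wv E x (l + 1) = wv E x l + E.a l * (E.m l).prod fun i n => x i ^ n := by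
  unfold wv
  rw [psum_succ, map_add, eval_monomial, add_assoc]

theorem phi_inl (w : ι → ℂ) (q : Q) : phi s copy E w (Sum.inl q) = s q := by
  simp [phi, num, den]

theorem phi_x (w : ι → ℂ) (t : T) (a : Fin h) :
    phi s copy E w (Sum.inr (t, Sum.inl a)) = w (copy t a) := by
  simp [phi, num, den]

theorem phi_r (w : ι → ℂ) (t : T) (l : Fin E.M) :
    phi s copy E w (Sum.inr (t, Sum.inr l)) =
      wv E (fun a => w (copy t a)) l / wv E (fun a => w (copy t a)) (l + 1) := by
  show eval w (rename (copy t) (C E.lam + psum E.m E.a l)) /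
    eval w (rename (copy t) (C E.lam + psum E.m E.a (l + 1))) = _
  rw [eval_rename, eval_rename, wv_eq, wv_eq]
  rfl

/-- a polynomial for one copy -/
noncomputable def good1 : MvPolynomial (Fin h) ℂ :=
  (∏ a, (X a - 1)) * ∏ l ∈ Finset.range (E.M + 1), (C E.lam + psum E.m E.a l)

/-- the polynomial which defines the complement of the domain -/
noncomputable def good : MvPolynomial ι ℂ := ∏ t, rename (copy t) (good1 E)

theorem eval_good {w : ι → ℂ} (hw : eval w (good copy E) ≠ 0) (t : T) :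
    (∀ a, w (copy t a) ≠ 1) ∧ ∀ l ≤ E.M, wv E (fun a => w (copy t a)) l ≠ 0 := by
  unfold good at hw
  rw [map_prod, Finset.prod_ne_zero_iff] at hw
  have h1 := hw t (Finset.mem_univ t)
  rw [eval_rename, good1, map_mul, map_prod, map_prod] at h1
  have h2 := Finset.prod_ne_zero_iff.1 (left_ne_zero_of_mul h1)
  have h3 := Finset.prod_ne_zero_iff.1 (right_ne_zero_of_mul h1)
  refine ⟨fun a ha => ?_, fun l hl => ?_⟩
  · apply h2 a (Finset.mem_univ a)
    rw [map_sub, map_one, eval_X]
    show w (copy t a) - 1 = 0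
    rw [ha, sub_self]
  · have h4 := h3 l (Finset.mem_range.2 (by omega))
    rw [wv_eq] at h4
    exact h4

/-- the values of the coordinates of the second kind -/
noncomputable def rv (y : Idx T Q h E.M → ℂ) (t : T) (j : ℕ) : ℂ :=
  if hj : j < E.M then y (Sum.inr (t, Sum.inr ⟨j, hj⟩)) else 1

theorem rv_lt (y : Idx T Q h E.M → ℂ) (t : T) (l : Fin E.M) :
    rv E y t l = y (Sum.inr (t, Sum.inr l)) := by
  unfold rv
  rw [dif_pos l.2]

end Def

/-- the parameters -/
structure Par {e h : ℕ} (g : Fin e → ℂ) {V' : Set (Fin h → ℂ)} (E : Enc V') {Q : Type}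
    (s : Q → ℂ) (γg : Fin e → Q) (γa : Fin E.M → Q) (γl : Q) : Prop where
  hs : ∀ q, s q ≠ 0 ∧ s q ≠ 1
  hg : ∀ i, s (γg i) = g i
  ginj : Function.Injective γg
  ha : ∀ l, s (γa l) = E.a l
  hl : s γl = E.lam

section Map

variable {e h k : ℕ} {g : Fin e → ℂ} {V' : Set (Fin h → ℂ)} {ι T Q : Type} [Fintype ι]
  [Fintype T] [Fintype Q] {β : Fin e → ι} {copy : T → Fin h → ι} {idx : ι → Fin e ⊕ (T × Fin h)}
  {W : Set (ι → ℂ)} {E : Enc V'} {s : Q → ℂ} {γg : Fin e → Q} {γa : Fin E.M → Q} {γl : Q}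

theorem good_not_mem (hS : Split g V') (hP : Pow k g V' β copy idx W) :
    good copy E ∉ idealOf W := by
  have hWp : (idealOf W).IsPrime := hP.pow.irred
  have hVp : (idealOf V').IsPrime := hS.irred
  have h1 : good1 E ∉ idealOf V' := by
    intro h0
    unfold good1 at h0
    rcases hVp.mem_or_mem h0 with h1 | h1
    · rw [hVp.prod_mem_iff] at h1
      obtain ⟨a, -, ha⟩ := h1
      classical
      refine hS.nonconst (Pi.single a 1) ?_ 1 fun v hv => ?_
      · intro h2
        have h3 := congrFun h2 a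
        rw [Pi.single_eq_same] at h3
        exact one_ne_zero h3
      · rw [chr_single]
        have h2 := mem_idealOf.1 ha v hv
        rw [map_sub, map_one, eval_X, sub_eq_zero] at h2
        exact h2
    · rw [hVp.prod_mem_iff] at h1
      obtain ⟨l, hl, hl'⟩ := h1
      exact E.hw l (by have := Finset.mem_range.1 hl; omega) hl'
  unfold good
  rw [hWp.prod_mem_iff]
  rintro ⟨t, -, ht⟩
  apply h1
  rw [mem_idealOf]
  intro v hv
  obtain ⟨w, hw, rfl⟩ := hP.surj t v hv
  have h2 := mem_idealOf.1 ht w hw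
  rw [eval_rename] at h2
  exact h2

theorem phi_line (hP : Pow k g V' β copy idx W) (hR : Par g E s γg γa γl) {w : ι → ℂ}
    (hw : w ∈ W) (hg : eval w (good copy E) ≠ 0) : phi s copy E w ∈ line (Idx T Q h E.M) := by
  rintro (q | ⟨t, (a | l)⟩)
  · rw [phi_inl]
    exact hR.hs q
  · rw [phi_x]
    exact ⟨hP.pow.torus w hw _, (eval_good copy E hg t).1 a⟩
  · rw [phi_r]
    have h1 := (eval_good copy E hg t).2 l l.2.le
    have h2 := (eval_good copy E hg t).2 (l + 1) l.2
    refine ⟨div_ne_zero h1 h2, ?_⟩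
    rw [Ne, div_eq_one_iff_eq h2, wv_succ]
    intro h3
    have h4 : E.a l * (E.m l).prod (fun i n => (w (copy t i)) ^ n) = 0 := by
      linear_combination -h3
    rw [mul_eq_zero] at h4
    rcases h4 with h4 | h4
    · exact (E.ha l l.2).1 h4
    · unfold Finsupp.prod at h4
      rw [Finset.prod_eq_zero_iff] at h4
      obtain ⟨i, -, h5⟩ := h4
      exact pow_ne_zero _ (hP.pow.torus w hw _) h5

/-- the products of the coordinates of the second kind on the image -/
theorem telescope {w : ι → ℂ} (hg : eval w (good copy E) ≠ 0) (t : T) (l : ℕ) (hl : l ≤ E.M) :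
    (∏ j ∈ Finset.range l, rv E (phi s copy E w) t j) * wv E (fun a => w (copy t a)) l =
      E.lam := by
  induction l with
  | zero => rw [Finset.prod_range_zero, one_mul, wv_zero]
  | succ l ih =>
    have h1 := ih (by omega)
    have h2 := (eval_good copy E hg t).2 (l + 1) hl
    have h3 : rv E (phi s copy E w) t l =
        wv E (fun a => w (copy t a)) l / wv E (fun a => w (copy t a)) (l + 1) := by
      rw [rv_lt E (phi s copy E w) t ⟨l, by omega⟩, phi_r]
    rw [Finset.prod_range_succ, h3, mul_assoc, div_mul_cancel₀ _ h2, h1]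

/-- the relations of the first kind -/
theorem rel1 {w : ι → ℂ} (hg : eval w (good copy E) ≠ 0) (hR : Par g E s γg γa γl) (t : T)
    (l : Fin E.M) :
    (1 - phi s copy E w (Sum.inr (t, Sum.inr l))) * phi s copy E w (Sum.inl γl) =
      phi s copy E w (Sum.inl (γa l)) *
        ((∏ i ∈ (E.m l).support, phi s copy E w (Sum.inr (t, Sum.inl i)) ^ (E.m l i)) *
          ∏ j ∈ Finset.range (l + 1), rv E (phi s copy E w) t j) := by
  have h1 := telescope (s := s) hg t (l + 1) l.2
  have h2 := (eval_good copy E hg t).2 (l + 1) l.2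
  rw [phi_inl, phi_inl, hR.hl, hR.ha, phi_r]
  have h3 : ∏ i ∈ (E.m l).support, phi s copy E w (Sum.inr (t, Sum.inl i)) ^ (E.m l i) =
      (E.m l).prod fun i n => (w (copy t i)) ^ n := by
    unfold Finsupp.prod
    exact Finset.prod_congr rfl fun i _ => by rw [phi_x]
  rw [h3]
  apply mul_right_cancel₀ h2
  rw [mul_assoc, mul_assoc, mul_assoc, h1]
  have h4 : (1 - wv E (fun a => w (copy t a)) l / wv E (fun a => w (copy t a)) (l + 1)) *
      wv E (fun a => w (copy t a)) (l + 1) = E.a l * (E.m l).prod fun i n => (w (copy t i)) ^ n := by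
    rw [sub_mul, one_mul, div_mul_cancel₀ _ h2, wv_succ]
    ring
  calc _ = (1 - wv E (fun a => w (copy t a)) l / wv E (fun a => w (copy t a)) (l + 1)) *
      wv E (fun a => w (copy t a)) (l + 1) * E.lam := by ring
    _ = _ := by rw [h4]; ring

/-- the relations of the second kind -/
theorem rel2 {w : ι → ℂ} (hP : Pow k g V' β copy idx W) (hw : w ∈ W)
    (hg : eval w (good copy E) ≠ 0) (t : T) {l : ℕ} (hl : l ∈ E.cuts) :
    ∏ j ∈ Finset.range l, rv E (phi s copy E w) t j = 1 := by
  have h1 := telescope (s := s) hg t l (E.hle l hl)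
  have h2 : wv E (fun a => w (copy t a)) l = E.lam := by
    unfold wv
    rw [mem_idealOf.1 (E.hcut l hl) _ (hP.copies w hw t), add_zero]
  rw [h2] at h1
  exact mul_right_cancel₀ E.hlam.1 (by rw [h1, one_mul])

/-- the image of the power -/
noncomputable def image (s : Q → ℂ) (copy : T → Fin h → ι) (E : Enc V') (X : Set (ι → ℂ)) :
    Set (Idx T Q h E.M → ℂ) := phi s copy E '' {w | w ∈ X ∧ eval w (good copy E) ≠ 0}

theorem den_ne_zero {w : ι → ℂ} (hg : eval w (good copy E) ≠ 0) (i : Idx T Q h E.M) :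
    eval w (den copy E i) ≠ 0 := by
  rcases i with (q | ⟨t, (a | l)⟩)
  · simp [den]
  · simp [den]
  · show eval w (rename (copy t) (C E.lam + psum E.m E.a (l + 1))) ≠ 0
    rw [eval_rename, wv_eq]
    exact (eval_good copy E hg t).2 (l + 1) l.2

theorem irred_image {X : Set (ι → ℂ)} (hX : Irred X) (hD : good copy E ∉ idealOf X) :
    Irred (image s copy E X) :=
  irred_rat hX (num s copy E) (den copy E) hD fun _ _ hx i => den_ne_zero hx i

theorem image_line (hP : Pow k g V' β copy idx W) (hR : Par g E s γg γa γl) {X : Set (ι → ℂ)}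
    (hX : X ⊆ W) : image s copy E X ⊆ line (Idx T Q h E.M) := by
  rintro _ ⟨w, ⟨hw, hg⟩, rfl⟩
  exact phi_line hP hR (hX hw) hg

/-- the coordinates of `W` among those of the image -/
def pi (γg : Fin e → Q) (idx : ι → Fin e ⊕ (T × Fin h)) (M : ℕ) : ι → Idx T Q h M :=
  fun x => match idx x with
    | Sum.inl i => Sum.inl (γg i)
    | Sum.inr (t, a) => Sum.inr (t, Sum.inl a)

theorem pi_β (hP : Pow k g V' β copy idx W) (M : ℕ) (i : Fin e) :
    pi γg idx M (β i) = (Sum.inl (γg i) : Idx T Q h M) := by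
  unfold pi
  rw [hP.idxβ]

theorem pi_copy (hP : Pow k g V' β copy idx W) (M : ℕ) (t : T) (a : Fin h) :
    pi γg idx M (copy t a) = (Sum.inr (t, Sum.inl a) : Idx T Q h M) := by
  unfold pi
  rw [hP.idxc]

theorem cases_idx (hP : Pow k g V' β copy idx W) (x : ι) :
    (∃ i, x = β i) ∨ ∃ t a, x = copy t a := by
  rcases h1 : idx x with i | ⟨t, a⟩
  · exact Or.inl ⟨i, hP.inj (by rw [h1, hP.idxβ])⟩
  · exact Or.inr ⟨t, a, hP.inj (by rw [h1, hP.idxc])⟩

theorem pi_injective (hP : Pow k g V' β copy idx W) (hγ : Function.Injective γg) (M : ℕ) :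
    Function.Injective (pi γg idx M : ι → Idx T Q h M) := by
  intro x y hxy
  rcases cases_idx hP x with ⟨i, rfl⟩ | ⟨t, a, rfl⟩ <;>
    rcases cases_idx hP y with ⟨j, rfl⟩ | ⟨t', b, rfl⟩
  · rw [pi_β hP, pi_β hP, Sum.inl.injEq] at hxy
    rw [hγ hxy]
  · rw [pi_β hP, pi_copy hP] at hxy
    exact absurd hxy (by simp)
  · rw [pi_β hP, pi_copy hP] at hxy
    exact absurd hxy (by simp)
  · rw [pi_copy hP, pi_copy hP, Sum.inr.injEq, Prod.mk.injEq, Sum.inl.injEq] at hxy
    rw [hxy.1, hxy.2]

theorem phi_pi (hP : Pow k g V' β copy idx W) (hR : Par g E s γg γa γl) {w : ι → ℂ}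
    (hw : w ∈ W) (x : ι) : phi s copy E w (pi γg idx E.M x) = w x := by
  rcases cases_idx hP x with ⟨i, rfl⟩ | ⟨t, a, rfl⟩
  · rw [pi_β hP, phi_inl, hR.hg, hP.pow.base w hw]
  · rw [pi_copy hP, phi_x]

theorem dim_image_ge (hP : Pow k g V' β copy idx W) (hR : Par g E s γg γa γl)
    {X : Set (ι → ℂ)} (hX : Irred X) (hXW : X ⊆ W) (hD : good copy E ∉ idealOf X) :
    dim X ≤ dim (image s copy E X) := by
  have h1 : img (pi γg idx E.M) (image s copy E X) = {w | w ∈ X ∧ eval w (good copy E) ≠ 0} := by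
    ext w
    constructor
    · rintro ⟨_, ⟨w', hw', rfl⟩, rfl⟩
      have h2 : (fun x => phi s copy E w' (pi γg idx E.M x)) = w' := by
        funext x
        exact phi_pi hP hR (hXW hw'.1) x
      show (fun x => phi s copy E w' (pi γg idx E.M x)) ∈ _
      rw [h2]
      exact hw'
    · intro hw
      refine ⟨_, ⟨w, hw, rfl⟩, ?_⟩
      funext x
      exact phi_pi hP hR (hXW hw.1) x
  have h2 := dim_img_le (f := (pi γg idx E.M : ι → Idx T Q h E.M))
    (irred_image (s := s) (copy := copy) (E := E) hX hD)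
  rw [h1] at h2
  have h3 : dim {w | w ∈ X ∧ eval w (good copy E) ≠ 0} = dim X := by
    unfold dim
    rw [idealOf_open hX hD]
  omega

end Map

end Pool.Agent.T6.H15.UE
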