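import Pool.Agent.T6.H15.UE.Conv

/-!
# Points instead of subvarieties
-/

set_option autoImplicit false

open MvPolynomial

namespace Pool.Agent.T6.H15.UE

open Pool.Agent.T6.H15.ZP Pool.Agent.T6.H15.MZ

/-- Finitely many irreducible subsets are enough for the points: each point `x` is contained in one of
them such that `x` has at most `dim Y + t` more relations than `Y`. -/
def PtFin (κ : Type) [Fintype κ] (t : ℕ) : Prop :=
  ∃ 𝒴 : Set (Set (κ → ℂ)), 𝒴.Finite ∧ (∀ Y ∈ 𝒴, Irred Y ∧ Y ⊆ line κ) ∧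
    ∀ x ∈ line κ, ∃ Y ∈ 𝒴, x ∈ Y ∧
      Module.finrank ℤ (rel {x}) ≤ dim Y + Module.finrank ℤ (rel Y) + t

theorem OptFin.ptFin {κ : Type} [Fintype κ] {t : ℕ} (H : OptFin κ t) : PtFin κ t := by
  obtain ⟨𝒴, h1, h2, h3⟩ := H
  refine ⟨𝒴, h1, h2, fun x hx => ?_⟩
  obtain ⟨Y, hY, h4, h5⟩ := h3 {x} (irred_singleton x) (by rintro y rfl; exact hx)
  rw [dim_singleton, zero_add] at h5
  exact ⟨Y, hY, h4 rfl, h5⟩

theorem PtFin.transport {κ κ' : Type} [Fintype κ] [Fintype κ'] (e : κ' ≃ κ) {t : ℕ}
    (H : PtFin κ' t) : PtFin κ t := by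
  obtain ⟨𝒴, h1, h2, h3⟩ := H
  refine ⟨(fun Y => img e.symm Y) '' 𝒴, h1.image _, ?_, ?_⟩
  · rintro _ ⟨Y, hY, rfl⟩
    exact ⟨irred_img (h2 Y hY).1, img_line e.symm (h2 Y hY).2⟩
  · intro x hx
    have hxL : ({x} : Set (κ → ℂ)) ⊆ line κ := by
      rintro y rfl
      exact hx
    obtain ⟨Y, hY, h4, h5⟩ := h3 (fun k => x (e k)) (img_line e hxL ⟨x, rfl, rfl⟩)
    refine ⟨_, ⟨Y, hY, rfl⟩, ?_, ?_⟩
    · refine ⟨_, h4, ?_⟩
      funext k
      simp
    · rw [dim_img e.symm (h2 Y hY).1, finrank_img e.symm (h2 Y hY).2]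
      have h6 : img e ({x} : Set (κ → ℂ)) = {fun k => x (e k)} := by
        unfold img
        rw [Set.image_singleton]
      rw [← finrank_img e hxL, h6]
      exact h5

section

variable {ι : Type} [Fintype ι]

/-- The relations of the point: those of `X` and those between the torsion coordinates. -/
theorem finrank_sup_ge' {X : Set (ι → ℂ)} {s : Finset ι} (hX : Irred X)
    (ht : InTorus X) (hs : Indep X (fun i : s => (i : ι))) {M : Submodule ℤ (ι → ℤ)}
    (hM : TorsOn X M) {Λ : Submodule ℤ (ι → ℤ)} (h1 : M ≤ Λ)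
    (h2 : ∀ i ∈ s, (Set.indicator {i} (fun _ => (1 : ℤ)) : ι → ℤ) ∈ Λ) :
    Module.finrank ℤ M + s.card ≤ Module.finrank ℤ Λ := by
  classical
  have h2' : ∀ i ∈ s, Pi.single i (1 : ℤ) ∈ Λ := by
    intro i hi
    have h := h2 i hi
    have h3 : (Set.indicator {i} (fun _ => (1 : ℤ)) : ι → ℤ) = Pi.single i (1 : ℤ) := by
      funext j
      by_cases h : j = i
      · subst h
        rw [Set.indicator_of_mem (Set.mem_singleton _), Pi.single_eq_same]
      · rw [Set.indicator_of_notMem (fun h' => h (Set.mem_singleton_iff.1 h')),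
          Pi.single_eq_of_ne h]
    rwa [h3] at h
  let φ : (M × (s → ℤ)) →ₗ[ℤ] (ι → ℤ) := M.subtype.coprod
    (Fintype.linearCombination ℤ fun i : s => (Pi.single (i : ι) (1 : ℤ) : ι → ℤ))
  have hφ : ∀ p, φ p = (p.1 : ι → ℤ) + ∑ i : s, p.2 i • Pi.single (i : ι) (1 : ℤ) := by
    intro p
    show M.subtype.coprod _ p = _
    rw [LinearMap.coprod_apply, Fintype.linearCombination_apply]
    rfl
  have hinj : Function.Injective φ := by
    rw [← LinearMap.ker_eq_bot, Submodule.eq_bot_iff]
    intro p hp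
    rw [LinearMap.mem_ker, hφ] at hp
    obtain ⟨c, hc, hconst⟩ := hM _ p.1.2
    have h3 : ∀ x ∈ X, ∏ i : s, x i ^ p.2 i = c⁻¹ := by
      intro x hx
      have h4 := congrArg (chr x) hp
      rw [chr_add (ht x hx), hconst x hx, chr_zero, chr_sum (ht x hx)] at h4
      have h5 : ∏ i : s, chr x (p.2 i • (Pi.single (i : ι) (1 : ℤ) : ι → ℤ)) =
          ∏ i : s, x i ^ p.2 i :=
        Finset.prod_congr rfl fun i _ => by rw [chr_zsmul, chr_single]
      rw [h5] at h4
      rw [eq_comm]
      exact inv_eq_of_mul_eq_one_right h4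
    have h6 : p.2 = 0 := by
      obtain ⟨f, hf⟩ := exists_binomial' (fun i : s => p.2 i) c⁻¹
      have h7 : f = 0 := by
        apply hs
        intro x hx
        rw [hf _ fun i => ht x hx i]
        exact h3 x hx
      -- a binomial which vanishes everywhere
      have h8 : ∀ y : s → ℂ, (∀ i, y i ≠ 0) → chr y (fun i : s => p.2 i) = c⁻¹ := by
        intro y hy
        rw [← hf y hy, h7, map_zero]
      have h9 : c⁻¹ = 1 := by
        rw [← h8 (fun _ => 1) fun _ => one_ne_zero]
        simp [chr]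
      funext i
      have h10 := h8 (Function.update (fun _ => 1) i 2) (by
        intro j
        by_cases hj : j = i
        · subst hj
          rw [Function.update_self]
          exact two_ne_zero
        · rw [Function.update_of_ne hj]
          exact one_ne_zero)
      rw [h9] at h10
      have h11 : chr (Function.update (fun _ => (1 : ℂ)) i 2) (fun i : s => p.2 i) =
          2 ^ p.2 i := by
        unfold chr
        rw [Finset.prod_eq_single i]
        · rw [Function.update_self]
        · intro j _ hj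
          rw [Function.update_of_ne hj, one_zpow]
        · intro h
          exact absurd (Finset.mem_univ i) h
      rw [h11] at h10
      have h12 : ((2 : ℝ) ^ p.2 i) = 1 := by
        have h13 := congrArg (fun z : ℂ => ‖z‖) h10
        simpa using h13
      exact (zpow_eq_one_iff_right₀ (by norm_num : (0 : ℝ) ≤ 2) (by norm_num)).1 h12
    have h7 : p.1 = 0 := by
      apply Subtype.ext
      rw [h6] at hp
      simpa using hp
    exact Prod.ext h7 h6
  have hrange : LinearMap.range φ ≤ Λ := by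
    rintro _ ⟨p, rfl⟩
    rw [hφ]
    apply Λ.add_mem (h1 p.1.2)
    apply Submodule.sum_mem
    intro i _
    exact Λ.smul_mem _ (h2' i i.2)
  have h3 := Submodule.finrank_mono hrange
  rw [LinearMap.finrank_range_of_inj hinj, Module.finrank_prod,
    Module.finrank_fintype_fun_eq_card, Fintype.card_coe] at h3
  exact h3

/-- The points with many relations are dense. -/
theorem dense_points {W : Set (ι → ℂ)} (htW : InTorus W) (hcl : ClosedT W) {t : ℕ}
    (hd : DenseExcess W t) {f : MvPolynomial ι ℂ} (hf : f ∉ idealOf W) :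
    ∃ x ∈ W, eval x f ≠ 0 ∧ ∃ Λ, TorsOn {x} Λ ∧ dim W + t ≤ Module.finrank ℤ Λ := by
  classical
  obtain ⟨X, ⟨hX, hXW, M, hM, hdim⟩, hfX⟩ := hd f hf
  have htX : InTorus X := fun x hx => htW x (hXW hx)
  obtain ⟨x, s, hx0, hxX, hxf, hs, hsc, hsr⟩ := exists_point hX htX hfX
  have hxW : x ∈ W := hcl x hx0 fun p hp => hxX p (idealOf_mono hXW hp)
  have htx : InTorus ({x} : Set (ι → ℂ)) := by
    rintro y rfl
    exact hx0
  have h1 : M ≤ tl {x} htx := by
    intro a ha
    obtain ⟨c, hc, hconst⟩ := hM a ha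
    obtain ⟨g, hg⟩ := exists_binomial' a c
    have h2 : g ∈ idealOf X := by
      rw [mem_idealOf]
      exact fun y hy => (hg y (htX y hy)).2 (hconst y hy)
    refine ⟨c, hc, ?_⟩
    rintro y rfl
    exact (hg y hx0).1 (hxX g h2)
  have h2 : ∀ i ∈ s, (Set.indicator {i} (fun _ => (1 : ℤ)) : ι → ℤ) ∈ tl {x} htx := by
    intro i hi
    refine ⟨x i, hsr i hi, ?_⟩
    rintro y rfl
    have h3 : (Set.indicator {i} (fun _ => (1 : ℤ)) : ι → ℤ) = Pi.single i (1 : ℤ) := by
      funext j
      by_cases h : j = i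
      · subst h
        rw [Set.indicator_of_mem (Set.mem_singleton _), Pi.single_eq_same]
      · rw [Set.indicator_of_notMem (fun h' => h (Set.mem_singleton_iff.1 h')),
          Pi.single_eq_of_ne h]
    rw [h3]
    exact chr_single _ _
  have h3 := finrank_sup_ge' hX htX hs hM h1 h2
  refine ⟨x, hxW, hxf, tl {x} htx, fun a ha => ha, by omega⟩

end

end Pool.Agent.T6.H15.UE
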