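import Pool.Agent.T6.H15.UE.Lat

/-!
# Rational maps and monomial functions
-/

set_option autoImplicit false

open MvPolynomial

namespace Pool.Agent.T6.H15.UE

open Pool.Agent.T6.H15.ZP Pool.Agent.T6.H15.MZ

section Rat

variable {ι κ : Type} [Fintype κ]

/-- A polynomial in rational functions corresponds to a polynomial. -/
theorem exists_pull_rat (N D : κ → MvPolynomial ι ℂ) (G : MvPolynomial κ ℂ) :
    ∃ H : MvPolynomial ι ℂ, ∀ x : ι → ℂ, (∀ i, eval x (D i) ≠ 0) →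
      (eval x H = 0 ↔ eval (fun i => eval x (N i) / eval x (D i)) G = 0) := by
  classical
  obtain ⟨e, H, hH⟩ := Helper834.EC.clear_denom (∏ i, D i : MvPolynomial ι ℂ)
    (fun i => N i * ∏ j ∈ Finset.univ.erase i, D j) G
  refine ⟨H, fun x hx => ?_⟩
  have h0 : (aeval x : MvPolynomial ι ℂ →ₐ[ℂ] ℂ) (∏ i, D i) ≠ 0 := by
    rw [map_prod]
    exact Finset.prod_ne_zero_iff.2 fun i _ => by rw [aeval_eq_eval]; exact hx i
  have h1 := hH ℂ (aeval x) h0
  have h2 : (fun t => (aeval x : MvPolynomial ι ℂ →ₐ[ℂ] ℂ)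
      (N t * ∏ j ∈ Finset.univ.erase t, D j) /
      (aeval x : MvPolynomial ι ℂ →ₐ[ℂ] ℂ) (∏ i, D i)) =
      fun i => eval x (N i) / eval x (D i) := by
    funext i
    have h3 : (∏ i, D i) = D i * ∏ j ∈ Finset.univ.erase i, D j :=
      (Finset.mul_prod_erase Finset.univ D (Finset.mem_univ i)).symm
    have h4 : eval x (∏ j ∈ Finset.univ.erase i, D j) ≠ 0 := by
      rw [map_prod]
      exact Finset.prod_ne_zero_iff.2 fun j _ => hx j
    rw [aeval_eq_eval, h3, map_mul, map_mul, mul_div_mul_right _ _ h4]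
  rw [h2] at h1
  rw [← aeval_eq_eval, ← aeval_eq_eval, h1, mul_eq_zero]
  constructor
  · rintro (h3 | h3)
    · exact absurd h3 (pow_ne_zero _ h0)
    · exact h3
  · exact Or.inr

theorem irred_rat {X : Set (ι → ℂ)} (hX : Irred X) (N D : κ → MvPolynomial ι ℂ)
    {D0 : MvPolynomial ι ℂ} (hD0 : D0 ∉ idealOf X)
    (h0 : ∀ x ∈ X, eval x D0 ≠ 0 → ∀ i, eval x (D i) ≠ 0) :
    Irred ((fun x i => eval x (N i) / eval x (D i)) '' {x | x ∈ X ∧ eval x D0 ≠ 0}) := by
  rw [irred_iff] at hX ⊢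
  obtain ⟨x0, hx0, h1⟩ := exists_of_not_mem hD0
  refine ⟨⟨_, x0, ⟨hx0, h1⟩, rfl⟩, fun f f' hf hf' hff => ?_⟩
  obtain ⟨H, hH⟩ := exists_pull_rat N D f
  obtain ⟨H', hH'⟩ := exists_pull_rat N D f'
  obtain ⟨_, ⟨x, ⟨hx, hxD⟩, rfl⟩, hxf⟩ := exists_of_not_mem hf
  obtain ⟨_, ⟨x', ⟨hx', hxD'⟩, rfl⟩, hxf'⟩ := exists_of_not_mem hf'
  have h2 : H ∉ idealOf X := not_mem_of_eval hx fun h => hxf ((hH x (h0 x hx hxD)).1 h)
  have h3 : H' ∉ idealOf X := not_mem_of_eval hx' fun h => hxf' ((hH' x' (h0 x' hx' hxD')).1 h)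
  obtain ⟨z, hz, h4⟩ := exists_of_not_mem (hX.2 _ _ (hX.2 _ _ h2 h3) hD0)
  rw [map_mul, map_mul] at h4
  have h5 := right_ne_zero_of_mul h4
  have h6 := left_ne_zero_of_mul h4
  have h7 := mem_idealOf.1 hff _ ⟨z, ⟨hz, h5⟩, rfl⟩
  rw [map_mul, mul_eq_zero] at h7
  rcases h7 with h7 | h7
  · exact left_ne_zero_of_mul h6 ((hH z (h0 z hz h5)).2 h7)
  · exact right_ne_zero_of_mul h6 ((hH' z (h0 z hz h5)).2 h7)

/-- the part of `X` where `D0` does not vanish -/
theorem idealOf_open {X : Set (ι → ℂ)} (hX : Irred X) {D0 : MvPolynomial ι ℂ}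
    (hD0 : D0 ∉ idealOf X) : idealOf {x | x ∈ X ∧ eval x D0 ≠ 0} = idealOf X := by
  apply le_antisymm
  · intro f hf
    have hXp : (idealOf X).IsPrime := hX
    have h1 : f * D0 ∈ idealOf X := by
      rw [mem_idealOf]
      intro x hx
      rw [map_mul]
      by_cases h : eval x D0 = 0
      · rw [h, mul_zero]
      · rw [mem_idealOf.1 hf x ⟨hx, h⟩, zero_mul]
    exact (hXp.mem_or_mem h1).resolve_right hD0
  · exact idealOf_mono fun x hx => hx.1

end Rat

section Mon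

variable {κ : Type} [Fintype κ]

/-- `f` is a monomial in the coordinates `u` and `1 - u`. -/
def IsMon (f : (κ → ℂ) → ℂ) : Prop := ∃ a : κ ⊕ κ → ℤ, ∀ y ∈ line κ, chr (pair y) a = f y

theorem IsMon.one : IsMon (fun _ : κ → ℂ => (1 : ℂ)) := ⟨0, fun _ _ => chr_zero _⟩

theorem IsMon.coord (i : κ) : IsMon (fun y : κ → ℂ => y i) := by
  classical
  exact ⟨Pi.single (Sum.inl i) 1, fun y _ => by rw [chr_single]; rfl⟩

theorem IsMon.coord' (i : κ) : IsMon (fun y : κ → ℂ => 1 - y i) := by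
  classical
  exact ⟨Pi.single (Sum.inr i) 1, fun y _ => by rw [chr_single]; rfl⟩

theorem IsMon.mul {f g : (κ → ℂ) → ℂ} (hf : IsMon f) (hg : IsMon g) :
    IsMon (fun y => f y * g y) := by
  obtain ⟨a, ha⟩ := hf
  obtain ⟨b, hb⟩ := hg
  exact ⟨a + b, fun y hy => by rw [chr_add (pair_ne_zero hy), ha y hy, hb y hy]⟩

theorem IsMon.pow {f : (κ → ℂ) → ℂ} (hf : IsMon f) (n : ℕ) : IsMon (fun y => f y ^ n) := by
  obtain ⟨a, ha⟩ := hf
  exact ⟨(n : ℤ) • a, fun y hy => by rw [chr_zsmul, ha y hy, zpow_natCast]⟩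

theorem IsMon.prod {σ : Type} (s : Finset σ) {f : σ → (κ → ℂ) → ℂ} (hf : ∀ i ∈ s, IsMon (f i)) :
    IsMon (fun y => ∏ i ∈ s, f i y) := by
  classical
  induction s using Finset.induction_on with
  | empty => simpa using IsMon.one
  | insert i s hi ih =>
    have h := (hf i (Finset.mem_insert_self i s)).mul
      (ih fun j hj => hf j (Finset.mem_insert_of_mem hj))
    have h1 : (fun y => ∏ j ∈ insert i s, f j y) = fun y => f i y * ∏ j ∈ s, f j y := by
      funext y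
      rw [Finset.prod_insert hi]
    rw [h1]
    exact h

/-- An equality of monomials which holds on `U` holds on `Y` if all relations of `U` hold on `Y`. -/
theorem IsMon.transfer {f g : (κ → ℂ) → ℂ} (hf : IsMon f) (hg : IsMon g) {U Y : Set (κ → ℂ)}
    (hU : U ⊆ line κ) (hY : Y ⊆ line κ) (hne : U.Nonempty) (hrel : rel U ≤ rel Y)
    (hI : idealOf Y ≤ idealOf U) (h : ∀ y ∈ U, f y = g y) : ∀ y ∈ Y, f y = g y := by
  obtain ⟨a, ha⟩ := hf
  obtain ⟨b, hb⟩ := hg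
  have key : ∀ y ∈ line κ, (chr (pair y) (a - b) = 1 ↔ f y = g y) := by
    intro y hy
    have h1 : chr (pair y) (a - b) = f y * (g y)⁻¹ := by
      rw [sub_eq_add_neg, chr_add (pair_ne_zero hy), chr_neg, ha y hy, hb y hy]
    have h2 : g y ≠ 0 := by
      rw [← hb y hy]
      exact chr_ne_zero (pair_ne_zero hy) _
    rw [h1, ← div_eq_mul_inv, div_eq_one_iff_eq h2]
  have h1 : a - b ∈ rel U :=
    (mem_rel hU).2 ⟨1, RootU.one, fun y hy => (key y (hU hy)).2 (h y hy)⟩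
  obtain ⟨c, -, hc⟩ := (mem_rel hY).1 (hrel h1)
  obtain ⟨u, hu⟩ := hne
  have h2 := rel_closure hY hU hI hc u hu
  rw [(key u (hU hu)).2 (h u hu)] at h2
  subst h2
  intro y hy
  exact (key y (hY hy)).1 (hc y hy)

end Mon

theorem isAlgebraic_of_mul {R A : Type} [CommRing R] [CommRing A] [Algebra R A] {b a : R} {z : A}
    (hb : b ≠ 0) (h : algebraMap R A b * z = algebraMap R A a) : IsAlgebraic R z := by
  refine ⟨Polynomial.C b * Polynomial.X - Polynomial.C a, fun h0 => hb ?_, ?_⟩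
  · have h1 := congrArg (fun p => Polynomial.coeff p 1) h0
    simpa using h1
  · simp [h]

end Pool.Agent.T6.H15.UE
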