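import Pool.Agent.T6.H15.UE.Final

/-!
# Unit equations in groups of finite rank
-/

set_option autoImplicit false

open MvPolynomial

namespace Pool.Agent.T6.H15.UE

open Pool.Agent.T6.H15.ZP Pool.Agent.T6.H15.MZ

section

variable {κ : Type} [Fintype κ] {Γ : Subgroup ℂˣ} (z : κ ⊕ κ → Γ)

/-- the monomial map -/
noncomputable def monoMap : (κ ⊕ κ → ℤ) →ₗ[ℤ] Additive Γ :=
  Fintype.linearCombination ℤ fun i => Additive.ofMul (z i)

theorem monoMap_val (a : κ ⊕ κ → ℤ) :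
    (((monoMap z a).toMul : ℂˣ) : ℂ) = chr (fun i => ((z i : ℂˣ) : ℂ)) a := by
  unfold monoMap chr
  rw [Fintype.linearCombination_apply, toMul_sum]
  rw [Subgroup.val_finsetProd, Units.coe_prod]
  refine Finset.prod_congr rfl fun i _ => ?_
  rw [toMul_zsmul, toMul_ofMul, Subgroup.coe_zpow, Units.val_zpow_eq_zpow_val]

theorem monoMap_eq_zero {a : κ ⊕ κ → ℤ} :
    monoMap z a = 0 ↔ chr (fun i => ((z i : ℂˣ) : ℂ)) a = 1 := by
  rw [← monoMap_val]
  constructor
  · intro h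
    rw [h]
    simp
  · intro h
    have h1 : (((monoMap z a).toMul : Γ) : ℂˣ) = 1 := Units.ext h
    have h2 : (monoMap z a).toMul = 1 := Subtype.ext h1
    exact congrArg Additive.ofMul h2

theorem finrank_ker_add :
    Module.finrank ℤ (LinearMap.range (monoMap z)) + Module.finrank ℤ (LinearMap.ker (monoMap z)) =
      2 * Fintype.card κ := by
  have h1 := Submodule.finrank_quotient_add_finrank (LinearMap.ker (monoMap z))
  rw [(monoMap z).quotKerEquivRange.finrank_eq, Module.finrank_fintype_fun_eq_card,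
    Fintype.card_sum] at h1
  omega

end

section

variable {κ : Type} [Fintype κ]

theorem fg_additive {Γ : Subgroup ℂˣ} (hΓ : Γ.FG) : Module.Finite ℤ (Additive Γ) := by
  have h1 : Group.FG Γ := (Group.fg_iff_subgroup_fg Γ).2 hΓ
  rw [Module.Finite.iff_addGroup_fg]
  exact GroupFG.iff_add_fg.1 h1

/-- The rank of a group which contains the coordinates. -/
theorem rank_group_ge {Γ : Subgroup ℂˣ} (hΓ : Γ.FG) {x : κ → ℂ} (hx : x ∈ line κ)
    (z : κ ⊕ κ → Γ) (hz : ∀ i, ((z i : ℂˣ) : ℂ) = pair x i) :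
    2 * Fintype.card κ ≤ Module.finrank ℤ (Additive Γ) + Module.finrank ℤ (rel {x}) := by
  have := fg_additive hΓ
  have hxL : ({x} : Set (κ → ℂ)) ⊆ line κ := by
    rintro y rfl
    exact hx
  have h1 := finrank_ker_add z
  have h2 : Module.finrank ℤ (LinearMap.range (monoMap z)) ≤ Module.finrank ℤ (Additive Γ) :=
    Submodule.finrank_le _
  have h3 : LinearMap.ker (monoMap z) ≤ rel {x} := by
    intro a ha
    rw [LinearMap.mem_ker, monoMap_eq_zero] at ha
    refine (mem_rel hxL).2 ⟨1, RootU.one, ?_⟩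
    rintro y rfl
    rw [← ha]
    congr 1
    funext i
    exact (hz i).symm
  have h4 := Submodule.finrank_mono h3
  omega

/-- The group generated by the coordinates. -/
theorem exists_group {x : κ → ℂ} (hx : x ∈ line κ) :
    ∃ (Γ : Subgroup ℂˣ) (z : κ ⊕ κ → Γ), Γ.FG ∧ (∀ i, ((z i : ℂˣ) : ℂ) = pair x i) ∧
      Module.finrank ℤ (Additive Γ) + Module.finrank ℤ (rel {x}) ≤ 2 * Fintype.card κ := by
  classical
  have hxL : ({x} : Set (κ → ℂ)) ⊆ line κ := by
    rintro y rfl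
    exact hx
  set w : κ ⊕ κ → ℂˣ := fun i => Units.mk0 (pair x i) (pair_ne_zero hx i) with hw
  set Γ : Subgroup ℂˣ := Subgroup.closure (Set.range w) with hΓ
  have hΓfg : Γ.FG := by
    rw [Subgroup.fg_iff]
    exact ⟨Set.range w, rfl, Set.finite_range w⟩
  have := fg_additive hΓfg
  set z : κ ⊕ κ → Γ := fun i => ⟨w i, Subgroup.subset_closure ⟨i, rfl⟩⟩ with hz
  have hval : ∀ i, ((z i : ℂˣ) : ℂ) = pair x i := fun i => rfl
  have hchr : ∀ a, chr (fun i => ((z i : ℂˣ) : ℂ)) a = chr (pair x) a := fun a => rfl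
  refine ⟨Γ, z, hΓfg, hval, ?_⟩
  have h1 := finrank_ker_add z
  have hsurj : LinearMap.range (monoMap z) = ⊤ := by
    rw [LinearMap.range_eq_top]
    have key : ∀ (γ : ℂˣ) (hγ : γ ∈ Γ), ∃ a, monoMap z a = Additive.ofMul ⟨γ, hγ⟩ := by
      intro γ hγ
      induction hγ using Subgroup.closure_induction with
      | mem y hy =>
        obtain ⟨i, rfl⟩ := hy
        refine ⟨Pi.single i 1, ?_⟩
        unfold monoMap
        rw [Fintype.linearCombination_apply_single, one_smul]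
      | one => exact ⟨0, map_zero _⟩
      | mul y y' hy hy' h1 h2 =>
        obtain ⟨a, ha⟩ := h1
        obtain ⟨b, hb⟩ := h2
        exact ⟨a + b, by rw [map_add, ha, hb]; rfl⟩
      | inv y hy h1 =>
        obtain ⟨a, ha⟩ := h1
        exact ⟨-a, by rw [map_neg, ha]; rfl⟩
    intro γ
    exact key _ γ.toMul.2
  rw [hsurj, finrank_top] at h1
  -- a multiple of each relation is in the kernel
  have hN : (rel {x}).FG := IsNoetherian.noetherian _
  obtain ⟨S, hS⟩ := hN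
  have hm : ∀ a : κ ⊕ κ → ℤ, ∃ m : ℕ, 0 < m ∧ (a ∈ rel {x} → (m : ℤ) • a ∈ LinearMap.ker (monoMap z)) := by
    intro a
    by_cases ha : a ∈ rel {x}
    · obtain ⟨c, ⟨m, hm, hcm⟩, hc⟩ := (mem_rel hxL).1 ha
      refine ⟨m, hm, fun _ => ?_⟩
      rw [LinearMap.mem_ker, monoMap_eq_zero, hchr, chr_zsmul, hc x rfl, zpow_natCast, hcm]
    · exact ⟨1, one_pos, fun h => absurd h ha⟩
  choose m hm0 hm using hm
  set N : ℕ := ∏ a ∈ S, m a with hNdef
  have hN0 : (N : ℤ) ≠ 0 := by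
    have : 0 < N := Finset.prod_pos fun a _ => hm0 a
    exact_mod_cast this.ne'
  have hall : ∀ a ∈ rel {x}, (N : ℤ) • a ∈ LinearMap.ker (monoMap z) := by
    have h2 : rel {x} ≤ (LinearMap.ker (monoMap z)).comap
        (LinearMap.lsmul ℤ (κ ⊕ κ → ℤ) (N : ℤ)) := by
      rw [← hS, Submodule.span_le]
      intro a ha
      have haS : a ∈ rel {x} := by
        rw [← hS]
        exact Submodule.subset_span ha
      have ha' : a ∈ S := ha
      show (N : ℤ) • a ∈ LinearMap.ker (monoMap z)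
      obtain ⟨k, hk⟩ := Finset.dvd_prod_of_mem m ha'
      have h3 : (N : ℤ) • a = (k : ℤ) • ((m a : ℤ) • a) := by
        rw [smul_smul, hNdef, hk]
        push_cast
        rw [mul_comm]
      rw [h3]
      exact Submodule.smul_mem _ _ (hm a haS)
    exact fun a ha => h2 ha
  let ψ : rel {x} →ₗ[ℤ] LinearMap.ker (monoMap z) :=
    { toFun := fun a => ⟨(N : ℤ) • (a : κ ⊕ κ → ℤ), hall a a.2⟩
      map_add' := fun a b => Subtype.ext (by
        show (N : ℤ) • ((a : κ ⊕ κ → ℤ) + b) = (N : ℤ) • (a : κ ⊕ κ → ℤ) + (N : ℤ) • (b : κ ⊕ κ → ℤ)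
        rw [smul_add])
      map_smul' := fun c a => Subtype.ext (by
        show (N : ℤ) • (c • (a : κ ⊕ κ → ℤ)) = c • ((N : ℤ) • (a : κ ⊕ κ → ℤ))
        rw [smul_comm]) }
  have hψ : Function.Injective ψ := by
    intro a b hab
    apply Subtype.ext
    have h2 : (N : ℤ) • (a : κ ⊕ κ → ℤ) = (N : ℤ) • (b : κ ⊕ κ → ℤ) := congrArg Subtype.val hab
    funext i
    have h3 := congrFun h2 i
    simp only [Pi.smul_apply, smul_eq_mul] at h3
    exact mul_left_cancel₀ hN0 h3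
  have h2 := LinearMap.finrank_le_finrank_of_injective hψ
  omega

/-- There are finitely many irreducible subsets `Y` of `(ℂ ∖ {0, 1})^κ` such that all families of
solutions of the equation `u + v = 1` in a group of finite rank are points of one of them, for which the
rank of the group is at least `2 |κ| - rank (rel Y) - dim Y - t`. -/
def UnitFin (κ : Type) [Fintype κ] (t : ℕ) : Prop :=
  ∃ 𝒴 : Set (Set (κ → ℂ)), 𝒴.Finite ∧ (∀ Y ∈ 𝒴, Irred Y ∧ Y ⊆ line κ) ∧
    ∀ Γ : Subgroup ℂˣ, Γ.FG → ∀ u v : κ → Γ, (∀ i, ((u i : ℂˣ) : ℂ) + ((v i : ℂˣ) : ℂ) = 1) →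
      ∃ Y ∈ 𝒴, (fun i => ((u i : ℂˣ) : ℂ)) ∈ Y ∧
        2 * Fintype.card κ ≤ Module.finrank ℤ (Additive Γ) + dim Y + Module.finrank ℤ (rel Y) + t

theorem unitFin_iff {t : ℕ} : UnitFin κ t ↔ PtFin κ t := by
  constructor
  · rintro ⟨𝒴, h1, h2, h3⟩
    refine ⟨𝒴, h1, h2, fun x hx => ?_⟩
    obtain ⟨Γ, z, hΓ, hz, hrank⟩ := exists_group hx
    have hzl : ∀ i, ((z (Sum.inl i) : ℂˣ) : ℂ) = x i := fun i => hz _
    obtain ⟨Y, hY, h4, h5⟩ := h3 Γ hΓ (fun i => z (Sum.inl i)) (fun i => z (Sum.inr i)) (by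
      intro i
      rw [hz, hz]
      show x i + (1 - x i) = 1
      ring)
    have h6 : (fun i => ((z (Sum.inl i) : ℂˣ) : ℂ)) = x := funext hzl
    rw [h6] at h4
    exact ⟨Y, hY, h4, by omega⟩
  · rintro ⟨𝒴, h1, h2, h3⟩
    refine ⟨𝒴, h1, h2, fun Γ hΓ u v huv => ?_⟩
    have hx : (fun i => ((u i : ℂˣ) : ℂ)) ∈ line κ := by
      intro i
      refine ⟨Units.ne_zero _, fun h => ?_⟩
      have h4 := huv i
      have h5 : ((u i : ℂˣ) : ℂ) = 1 := h
      rw [h5] at h4
      exact Units.ne_zero (v i : ℂˣ) (by linear_combination h4)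
    obtain ⟨Y, hY, h4, h5⟩ := h3 _ hx
    have h6 := rank_group_ge hΓ hx (Sum.elim u v) (by
      rintro (i | i)
      · rfl
      · show ((v i : ℂˣ) : ℂ) = 1 - ((u i : ℂˣ) : ℂ)
        linear_combination huv i)
    exact ⟨Y, hY, h4, by omega⟩

/-- **Main theorem.** -/
theorem main' : List.TFAE [∀ n, Zilber n, ∀ K, OptFin (Fin K) 0,
    ∀ ε : ℝ, 0 < ε → ∀ m : ℕ, ∃ K, m ≤ K ∧ UnitFin (Fin K) ⌊ε * K⌋₊] := by
  simp only [unitFin_iff]
  exact main

end

end Pool.Agent.T6.H15.UE
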